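import Pool.Agent.X136.GT.Quench

set_option autoImplicit false

/-!
# Galton-Watson trees without leaves are infinite; laws charging one child
-/

namespace Pool.Agent.X136.GT

open MeasureTheory ProbabilityTheory Filter Topology

theorem infinite_of_pos {Z : Env} (h : ∀ u, Z u ≠ 0) : {u | InTree Z u}.Infinite := by
  have h1 : ∀ n : ℕ, InTree Z (List.replicate n 0) := by
    intro n
    induction n with
    | zero => exact trivial
    | succ n ih =>
      rw [List.replicate_succ]
      exact ⟨ih, Nat.pos_of_ne_zero (h _)⟩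
  refine Set.infinite_of_injective_forall_mem (f := fun n : ℕ => List.replicate n 0) ?_ h1
  intro a b hab
  have := congrArg List.length hab
  simpa using this

theorem infinite_of_zero (ν : PMF ℕ) (h0 : ν 0 = 0) :
    ∀ᵐ Z ∂GW ν, {u | InTree Z u}.Infinite := by
  have h1 : ∀ᵐ Z ∂GW ν, ∀ u, Z u ≠ 0 := by
    rw [ae_all_iff]
    intro u
    rw [ae_iff]
    have h2 := (measurePreserving_eval_infinitePi (fun _ : List ℕ => ν.toMeasure) u).measure_preimage
      (s := {0}) (measurableSet_singleton 0).nullMeasurableSet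
    have h3 : (Function.eval u ⁻¹' {0} : Set Env) = {Z : Env | ¬ Z u ≠ 0} := by
      ext Z; simp
    rw [h3, PMF.toMeasure_apply_singleton _ _ (measurableSet_singleton 0), h0] at h2
    exact h2
  filter_upwards [h1] with Z hZ
  exact infinite_of_pos hZ

theorem pc_le_one (Z : Env) (r : ℕ) : pc (tree Z) r ≤ 1 := by
  refine csInf_le ⟨0, ?_⟩ ⟨⟨zero_le_one, le_rfl⟩, bern_one_pos _ _ _⟩
  rintro p ⟨hp, -⟩
  exact hp.1

theorem pc_one (ν : PMF ℕ) {r : ℕ} (hr : 2 ≤ r) (h0 : ν 0 = 0) (h1 : ν 1 ≠ 0) :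
    ∀ᵐ Z ∂GW ν, pc (tree Z) r = 1 := by
  have h2 := pc_ge ν hr (le_refl (1 : ℝ)) (by
    intro p hp0 hp1
    refine ⟨(1 - p) * (ν 1).toReal, ?_, ?_, ?_⟩
    · exact mul_pos (by linarith) (ENNReal.toReal_pos h1 (PMF.apply_ne_top ν 1))
    · have : (ν 1).toReal ≤ 1 := by
        have := ENNReal.toReal_mono ENNReal.one_ne_top (ν.coe_le_one 1)
        simpa using this
      have h3 : 0 ≤ (ν 1).toReal := ENNReal.toReal_nonneg
      nlinarith
    · rw [ENNReal.ofReal_mul (by linarith), ENNReal.ofReal_toReal (PMF.apply_ne_top ν 1)]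
      gcongr
      refine le_trans ?_ (ENNReal.le_tsum 1)
      have : ∀ y : ℝ, TT 1 r y = 1 := by
        intro y
        obtain ⟨s, rfl⟩ : ∃ s, r = s + 2 := ⟨r - 2, by omega⟩
        unfold TT
        rw [Finset.sum_range_succ', Finset.sum_range_succ', Finset.sum_eq_zero]
        · simp
        · intro j _
          rw [Nat.choose_eq_zero_of_lt (by omega)]
          simp
      rw [this]
      simp)
  filter_upwards [h2, infinite_of_zero ν h0] with Z hZ hinf
  exact le_antisymm (pc_le_one Z r) (hZ hinf)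

theorem exists_law {b : ℝ} (hb : 1 ≤ b) : ∃ ν : PMF ℕ, ν 0 = 0 ∧ ν 1 ≠ 0 ∧
    ∑' k : ℕ, ν k * (k : ENNReal) = ENNReal.ofReal b := by
  obtain ⟨K, hK⟩ := exists_nat_gt b
  have hK1 : (1 : ℝ) < K := lt_of_le_of_lt hb hK
  have hK1' : 1 < K := by exact_mod_cast hK1
  set t : ℝ := (b - 1) / (K - 1) with ht
  have hK2 : (0 : ℝ) < K - 1 := by linarith
  have ht0 : 0 ≤ t := div_nonneg (by linarith) hK2.le
  have ht1 : t < 1 := by rw [ht, div_lt_one hK2]; linarith
  have htm : t * (K - 1) = b - 1 := div_mul_cancel₀ _ hK2.ne'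
  let f : ℕ → ENNReal := fun k => if k = 1 then ENNReal.ofReal (1 - t) else
    if k = K then ENNReal.ofReal t else 0
  have f1 : f 1 = ENNReal.ofReal (1 - t) := by simp only [f, if_true]
  have fK : f K = ENNReal.ofReal t := by
    show (if K = 1 then ENNReal.ofReal (1 - t) else if K = K then ENNReal.ofReal t else 0) = _
    rw [if_neg (by omega), if_pos rfl]
  have f0 : ∀ k ∉ ({1, K} : Finset ℕ), f k = 0 := by
    intro k hk
    simp only [Finset.mem_insert, Finset.mem_singleton, not_or] at hk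
    show (if k = 1 then ENNReal.ofReal (1 - t) else if k = K then ENNReal.ofReal t else 0) = _
    rw [if_neg hk.1, if_neg hk.2]
  have hsum : ∑ k ∈ ({1, K} : Finset ℕ), f k = 1 := by
    rw [Finset.sum_pair (by omega), f1, fK, ← ENNReal.ofReal_add (by linarith) ht0]
    simp
  refine ⟨PMF.ofFinset f {1, K} hsum f0, ?_, ?_, ?_⟩
  · rw [PMF.ofFinset_apply]
    exact f0 0 (by simp; omega)
  · rw [PMF.ofFinset_apply, f1]
    exact (ENNReal.ofReal_pos.2 (by linarith)).ne'
  · rw [tsum_eq_sum (s := {1, K})]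
    · rw [Finset.sum_pair (by omega), PMF.ofFinset_apply, PMF.ofFinset_apply, f1, fK,
        ← ENNReal.ofReal_natCast K, ← ENNReal.ofReal_mul ht0]
      rw [Nat.cast_one, mul_one, ← ENNReal.ofReal_add (by linarith) (by positivity)]
      congr 1
      linarith
    · intro k hk
      rw [PMF.ofFinset_apply, f0 k hk, zero_mul]

end Pool.Agent.X136.GT
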