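import Pool.Agent.X136.GT.Defs

set_option autoImplicit false

/-!
# Healthy vertices: the deterministic part
-/

namespace Pool.Agent.X136.GT

/-- the root is healthy after `n` steps of the process in the tree -/
def DD (r : ℕ) : ℕ → Env → (List ℕ → Prop) → Prop
  | 0, _, a => ¬ a []
  | n + 1, Z, a => ¬ a [] ∧ ∀ S : Finset ℕ, (∀ i ∈ S, i < Z [] ∧
      ¬ DD r n (fun v => Z (v ++ [i])) (fun v => a (v ++ [i]))) → S.card < r

/-- the root stays healthy for ever -/
def DI (r : ℕ) (Z : Env) (a : List ℕ → Prop) : Prop := ∀ n, DD r n Z a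

/-- the root is healthy and all its children stay healthy for ever in their subtrees -/
def AA (r : ℕ) (Z : Env) (a : List ℕ → Prop) : Prop :=
  ¬ a [] ∧ ∀ i < Z [], DI r (fun v => Z (v ++ [i])) (fun v => a (v ++ [i]))

theorem DD_succ_imp (r n : ℕ) : ∀ Z a, DD r (n + 1) Z a → DD r n Z a := by
  induction n with
  | zero => intro Z a h; exact h.1
  | succ n ih =>
    intro Z a h
    refine ⟨h.1, fun S hS => h.2 S fun i hi => ⟨(hS i hi).1, fun h' => (hS i hi).2 (ih _ _ h')⟩⟩

theorem DD_anti {r m n : ℕ} (h : m ≤ n) (Z : Env) (a : List ℕ → Prop) (hn : DD r n Z a) :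
    DD r m Z a := by
  induction n, h using Nat.le_induction with
  | base => exact hn
  | succ n _ ih => exact ih (DD_succ_imp r n Z a hn)

theorem DI_card {r : ℕ} {Z : Env} {a : List ℕ → Prop} (h : DI r Z a) (S : Finset ℕ)
    (hS : ∀ i ∈ S, i < Z [] ∧ ¬ DI r (fun v => Z (v ++ [i])) (fun v => a (v ++ [i]))) :
    S.card < r := by
  classical
  have h1 : ∀ i, ∃ n, i ∈ S → ¬ DD r n (fun v => Z (v ++ [i])) (fun v => a (v ++ [i])) := by
    intro i
    by_cases hi : i ∈ S
    · have := (hS i hi).2
      unfold DI at this
      push Not at this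
      obtain ⟨n, hn⟩ := this
      exact ⟨n, fun _ => hn⟩
    · exact ⟨0, fun h => absurd h hi⟩
  choose f hf using h1
  refine (h (S.sup f + 1)).2 S fun i hi => ⟨(hS i hi).1, fun h' => hf i hi ?_⟩
  exact DD_anti (Finset.le_sup hi) _ _ h'

/-- the stable healthy set below `u` -/
def Kp (r : ℕ) (Z : Env) (a : List ℕ → Prop) (u : List ℕ) : List ℕ → Prop
  | [] => True
  | i :: v => Kp r Z a u v ∧ i < Z (v ++ u) ∧
      DI r (fun w => Z (w ++ (i :: (v ++ u)))) (fun w => a (w ++ (i :: (v ++ u))))

theorem append_child (f : List ℕ → ℕ) (i : ℕ) (x : List ℕ) :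
    (fun v => (fun w => f (w ++ x)) (v ++ [i])) = fun w => f (w ++ (i :: x)) := by
  funext v
  show f ((v ++ [i]) ++ x) = f (v ++ (i :: x))
  rw [List.append_assoc]; rfl

theorem append_child' (f : List ℕ → Prop) (i : ℕ) (x : List ℕ) :
    (fun v => (fun w => f (w ++ x)) (v ++ [i])) = fun w => f (w ++ (i :: x)) := by
  funext v
  show f ((v ++ [i]) ++ x) = f (v ++ (i :: x))
  rw [List.append_assoc]; rfl

theorem stable {r : ℕ} (hr : 2 ≤ r) {Z : Env} {a : List ℕ → Prop} {u : List ℕ}
    (hA : AA r (fun w => Z (w ++ u)) (fun w => a (w ++ u))) (n : ℕ) :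
    ∀ (x : {u : List ℕ // InTree Z u}) (v : List ℕ), Kp r Z a u v → x.1 = v ++ u →
      x ∉ (infect (tree Z) r)^[n] {y | a y.1} := by
  classical
  induction n with
  | zero =>
    intro x v hv hx
    show ¬ a x.1
    rw [hx]
    cases v with
    | nil => exact hA.1
    | cons i v => exact hv.2.2 0
  | succ n ih =>
    intro x v hv hx
    rw [Function.iterate_succ_apply']
    set I := (infect (tree Z) r)^[n] {y : {u : List ℕ // InTree Z u} | a y.1} with hI
    rintro (h | ⟨S, hScard, hS⟩)
    · exact ih x v hv hx h
    · cases v with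
      | nil =>
        have hx' : x.1 = u := hx
        have hpar : ∀ y ∈ S, ∃ i, x.1 = i :: y.1 := by
          intro y hy
          obtain ⟨hadj, hyI⟩ := hS y hy
          rcases hadj with ⟨i, hi⟩ | h
          · exfalso
            have hlt : i < Z x.1 := by
              have := y.2
              rw [hi] at this
              exact this.2
            refine ih y [i] ⟨trivial, ?_, ?_⟩ ?_ hyI
            · show i < Z ([] ++ u)
              rw [List.nil_append, ← hx']; exact hlt
            · have h2 := hA.2 i (by
                show i < Z ([] ++ u)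
                rw [List.nil_append, ← hx']; exact hlt)
              rw [append_child Z i u, append_child' a i u] at h2
              exact h2
            · rw [hi, hx']; rfl
          · exact h
        have h1 : S.card ≤ 1 := by
          rw [Finset.card_le_one]
          intro y hy z hz
          obtain ⟨i, hi⟩ := hpar y hy
          obtain ⟨j, hj⟩ := hpar z hz
          rw [hi] at hj
          exact Subtype.ext (List.cons.inj hj).2
        omega
      | cons j v' =>
        have hchild : ∀ y ∈ S, ∃ i, y.1 = i :: x.1 ∧ i < Z x.1 ∧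
            ¬ DI r (fun w => Z (w ++ (i :: x.1))) (fun w => a (w ++ (i :: x.1))) := by
          intro y hy
          obtain ⟨hadj, hyI⟩ := hS y hy
          rcases hadj with ⟨i, hi⟩ | ⟨i, hi⟩
          · have hlt : i < Z x.1 := by
              have := y.2
              rw [hi] at this
              exact this.2
            refine ⟨i, hi, hlt, fun hDI => ?_⟩
            refine ih y (i :: j :: v') ⟨hv, ?_, ?_⟩ ?_ hyI
            · rw [← hx]; exact hlt
            · rw [← hx]; exact hDI
            · rw [hi, hx]; rfl
          · exfalso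
            have h2 : y.1 = v' ++ u := by
              rw [hx] at hi
              exact (List.cons.inj hi).2.symm
            exact ih y v' hv.1 h2 hyI
        choose! f hf1 hf2 hf3 using hchild
        have hinj : Set.InjOn f S := by
          intro y hy z hz hyz
          apply Subtype.ext
          rw [hf1 y hy, hf1 z hz, hyz]
        have hcard : (S.image f).card = r := by
          rw [Finset.card_image_of_injOn hinj, hScard]
        have hDIx : DI r (fun w => Z (w ++ x.1)) (fun w => a (w ++ x.1)) := by
          rw [hx]; exact hv.2.2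
        have := DI_card hDIx (S.image f) (by
          intro i hi
          obtain ⟨y, hy, rfl⟩ := Finset.mem_image.1 hi
          refine ⟨hf2 y hy, ?_⟩
          rw [append_child Z (f y) x.1, append_child' a (f y) x.1]
          exact hf3 y hy)
        omega

theorem not_percolates {r : ℕ} (hr : 2 ≤ r) {Z : Env} {a : List ℕ → Prop} {u : List ℕ}
    (hu : InTree Z u) (hA : AA r (fun w => Z (w ++ u)) (fun w => a (w ++ u)))
    {c : {u : List ℕ // InTree Z u} → Bool} (hc : ∀ y, c y = true → a y.1) :
    ¬ Percolates (tree Z) r c := by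
  intro hP
  obtain ⟨n, hn⟩ := hP ⟨u, hu⟩
  have hmono : ∀ {A B : Set {u : List ℕ // InTree Z u}}, A ⊆ B →
      infect (tree Z) r A ⊆ infect (tree Z) r B := by
    intro A B hAB x hx
    rcases hx with h | ⟨S, h1, h2⟩
    · exact Or.inl (hAB h)
    · exact Or.inr ⟨S, h1, fun y hy => ⟨(h2 y hy).1, hAB (h2 y hy).2⟩⟩
  have h1 : ∀ n : ℕ, (infect (tree Z) r)^[n] {y | c y = true} ⊆
      (infect (tree Z) r)^[n] {y : {u : List ℕ // InTree Z u} | a y.1} := by
    intro n
    induction n with
    | zero => exact fun y hy => hc y hy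
    | succ n ih =>
      rw [Function.iterate_succ_apply', Function.iterate_succ_apply']
      exact hmono ih
  exact stable hr hA n ⟨u, hu⟩ [] trivial rfl (h1 n hn)

/-! ### infinite trees reach all levels -/

theorem finite_levels (Z : Env) (n : ℕ) : {u | InTree Z u ∧ u.length = n}.Finite := by
  induction n with
  | zero =>
    refine (Set.finite_singleton ([] : List ℕ)).subset ?_
    rintro u ⟨-, hu⟩
    exact List.length_eq_zero_iff.1 hu
  | succ n ih =>
    have : {u | InTree Z u ∧ u.length = n + 1} ⊆
        ⋃ v ∈ {u | InTree Z u ∧ u.length = n}, (fun i => i :: v) '' Set.Iio (Z v) := by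
      rintro (_ | ⟨i, v⟩) ⟨hu, hl⟩
      · simp at hl
      · refine Set.mem_biUnion (x := v) ⟨hu.1, by simpa using hl⟩ ⟨i, hu.2, rfl⟩
    exact (ih.biUnion fun v _ => (Set.finite_Iio _).image _).subset this

theorem InTree_tail {Z : Env} {i : ℕ} {u : List ℕ} (h : InTree Z (i :: u)) : InTree Z u := h.1

theorem exists_level {Z : Env} (hinf : {u | InTree Z u}.Infinite) (n : ℕ) :
    ∃ u, InTree Z u ∧ u.length = n := by
  by_contra hcon
  push Not at hcon
  have hlt : ∀ u, InTree Z u → u.length < n := by
    intro u
    induction u with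
    | nil =>
      intro _
      have := hcon [] trivial
      have h0 : ([] : List ℕ).length = 0 := rfl
      rw [h0] at this ⊢
      omega
    | cons i u ih =>
      intro h
      have h1 := ih h.1
      have h2 := hcon (i :: u) h
      rw [List.length_cons] at h2 ⊢
      omega
  apply hinf
  have : {u | InTree Z u} ⊆ ⋃ m ∈ Set.Iio n, {u | InTree Z u ∧ u.length = m} := by
    intro u hu
    exact Set.mem_biUnion (x := u.length) (hlt u hu) ⟨hu, rfl⟩
  exact ((Set.finite_Iio n).biUnion fun m _ => finite_levels Z m).subset this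

end Pool.Agent.X136.GT
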