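import Pool.Agent.X136.GT.Defs

set_option autoImplicit false

/-!
# Product measures: zipping, splitting at the root, independence of subtrees

The first three lemmas are adapted from files of the starting repository (`Y979/FC/Prod`,
`W782/FG/Split`, `W230/FR/Split`).
-/

namespace Pool.Agent.X136.GT

open MeasureTheory ProbabilityTheory

section zip

variable {ι E F : Type*} [MeasurableSpace E] [MeasurableSpace F] (μ : Measure E)
  [IsProbabilityMeasure μ] (ν : Measure F) [IsProbabilityMeasure ν]

/-- the family of pairs -/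
def zip (z : (ι → E) × (ι → F)) : ι → E × F := fun j => (z.1 j, z.2 j)

omit [MeasurableSpace E] [MeasurableSpace F] in
theorem zip_apply (z : (ι → E) × (ι → F)) (j : ι) : zip z j = (z.1 j, z.2 j) := rfl

theorem measurable_zip : Measurable (zip : (ι → E) × (ι → F) → ι → E × F) := by
  refine measurable_pi_lambda _ fun j => ?_
  unfold zip
  fun_prop

theorem map_zip : Measure.map zip ((Measure.infinitePi fun _ : ι => μ).prod
    (Measure.infinitePi fun _ : ι => ν)) = Measure.infinitePi fun _ : ι => μ.prod ν := by
  refine Measure.eq_infinitePi _ fun s t ht => ?_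
  have hm : MeasurableSet ((zip : (ι → E) × (ι → F) → ι → E × F) ⁻¹' ((s : Set ι).pi t)) :=
    measurable_zip (.pi s.countable_toSet fun _ _ => ht _)
  rw [Measure.map_apply measurable_zip (.pi s.countable_toSet fun _ _ => ht _),
    Measure.prod_apply hm]
  have h1 : ∀ x : ι → E, (Measure.infinitePi fun _ : ι => ν)
      (Prod.mk x ⁻¹' (zip ⁻¹' ((s : Set ι).pi t))) = ∏ i ∈ s, ν (Prod.mk (x i) ⁻¹' t i) := by
    intro x
    rw [← Measure.infinitePi_pi (fun _ : ι => ν) (s := s) (t := fun i => Prod.mk (x i) ⁻¹' t i)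
      (fun i _ => measurable_prodMk_left (ht i))]
    rfl
  simp only [h1]
  have h2 : ∀ i, Measurable fun a : E => ν (Prod.mk a ⁻¹' t i) := fun i =>
    measurable_measure_prodMk_left (ht i)
  have hind : ProbabilityTheory.iIndepFun (fun (i : ι) (x : ι → E) => ν (Prod.mk (x i) ⁻¹' t i))
      (Measure.infinitePi fun _ : ι => μ) := by
    have := ProbabilityTheory.iIndepFun_infinitePi (P := fun _ : ι => μ)
      (X := fun (i : ι) (a : E) => ν (Prod.mk a ⁻¹' t i)) h2
    exact this
  rw [ProbabilityTheory.lintegral_prod_eq_prod_lintegral_of_indepFun s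
    (fun i (x : ι → E) => ν (Prod.mk (x i) ⁻¹' t i)) hind
    (fun i => (h2 i).comp (measurable_pi_apply i))]
  refine Finset.prod_congr rfl fun i _ => ?_
  rw [Measure.prod_apply (ht i)]
  exact (measurePreserving_eval_infinitePi (fun _ : ι => μ) i).lintegral_comp (h2 i)

end zip

section split

variable {κ₁ κ₂ ι α : Type*} [MeasurableSpace α] (μ : Measure α) [IsProbabilityMeasure μ]

/-- join two families -/
def join2 (p : (κ₁ → α) × (κ₂ → α)) : κ₁ ⊕ κ₂ → α := Sum.elim p.1 p.2

lemma measurable_join2 : Measurable (join2 (κ₁ := κ₁) (κ₂ := κ₂) (α := α)) := by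
  rw [measurable_pi_iff]
  rintro (k | k)
  · exact (measurable_pi_apply k).comp measurable_fst
  · exact (measurable_pi_apply k).comp measurable_snd

lemma map_join2 :
    ((Measure.infinitePi fun _ : κ₁ => μ).prod (Measure.infinitePi fun _ : κ₂ => μ)).map join2 =
      Measure.infinitePi fun _ : κ₁ ⊕ κ₂ => μ := by
  apply Measure.eq_infinitePi
  intro s t ht
  rw [Measure.map_apply measurable_join2 (.pi s.countable_toSet fun _ _ => ht _)]
  have h1 : (join2 ⁻¹' (Set.pi s t) : Set ((κ₁ → α) × (κ₂ → α))) =
      (Set.pi s.toLeft fun k => t (Sum.inl k)) ×ˢ (Set.pi s.toRight fun k => t (Sum.inr k)) := by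
    ext p
    constructor
    · intro h
      constructor
      · intro k hk
        exact h (Sum.inl k) (by simpa using hk)
      · intro k hk
        exact h (Sum.inr k) (by simpa using hk)
    · rintro ⟨h2, h3⟩ o ho
      rcases o with k | k
      · exact h2 k (by simpa using ho)
      · exact h3 k (by simpa using ho)
  rw [h1, Measure.prod_prod, Measure.infinitePi_pi _ (fun k _ => ht _),
    Measure.infinitePi_pi _ (fun k _ => ht _)]
  conv_rhs => rw [← Finset.toLeft_disjSum_toRight (u := s)]
  rw [Finset.prod_disjSum]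

/-- split a family -/
lemma mp_split2 (f : κ₁ ⊕ κ₂ → ι) (hf : Function.Injective f) :
    MeasurePreserving (fun ω : ι → α =>
        ((fun k : κ₁ => ω (f (Sum.inl k))), (fun k : κ₂ => ω (f (Sum.inr k)))))
      (Measure.infinitePi fun _ : ι => μ) ((Measure.infinitePi fun _ : κ₁ => μ).prod
        (Measure.infinitePi fun _ : κ₂ => μ)) := by
  have hm : Measurable (fun ω : ι → α =>
      ((fun k : κ₁ => ω (f (Sum.inl k))), (fun k : κ₂ => ω (f (Sum.inr k))))) := by
    fun_prop
  refine ⟨hm, ?_⟩
  have h1 := Measure.map_infinitePi_infinitePi_of_inj (P := fun _ : ι => μ) hf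
  have hg : Measurable (fun ω : κ₁ ⊕ κ₂ → α =>
      ((fun k : κ₁ => ω (Sum.inl k)), (fun k : κ₂ => ω (Sum.inr k)))) := by
    fun_prop
  have h2 : (fun ω : ι → α =>
      ((fun k : κ₁ => ω (f (Sum.inl k))), (fun k : κ₂ => ω (f (Sum.inr k))))) =
      (fun ω : κ₁ ⊕ κ₂ → α =>
      ((fun k : κ₁ => ω (Sum.inl k)), (fun k : κ₂ => ω (Sum.inr k)))) ∘ (fun ω i => ω (f i)) := rfl
  rw [h2, ← Measure.map_map hg (by fun_prop), h1, ← map_join2 μ,
    Measure.map_map hg measurable_join2]
  exact Measure.map_id

end split

/-! ### words -/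

section words

variable {E : Type*} [MeasurableSpace E] (m : Measure E) [IsProbabilityMeasure m]

/-- the product law on words -/
noncomputable abbrev PW : Measure (List ℕ → E) := Measure.infinitePi fun _ : List ℕ => m

/-- the family seen from the vertex `u` -/
def shift (u : List ℕ) (ω : List ℕ → E) : List ℕ → E := fun v => ω (v ++ u)

theorem measurable_shift (u : List ℕ) : Measurable (shift u : (List ℕ → E) → List ℕ → E) := by
  refine measurable_pi_lambda _ fun v => ?_
  exact measurable_pi_apply _

/-- splitting at the root -/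
theorem mp_root : MeasurePreserving
    (fun ω : List ℕ → E => (ω [], fun i : ℕ => shift [i] ω)) (PW m)
    (m.prod (Measure.infinitePi fun _ : ℕ => PW m)) := by
  have h1 := mp_split2 m (κ₁ := Unit) (κ₂ := ℕ × List ℕ) (ι := List ℕ)
    (fun o => Sum.elim (fun _ => ([] : List ℕ)) (fun q => q.2 ++ [q.1]) o) (by
      rintro (_ | a) (_ | b) h
      · rfl
      · simp at h
      · simp at h
      · simp only [Sum.elim_inr] at h
        obtain ⟨h1, h2⟩ := List.append_inj' h rfl
        have h3 : a.1 = b.1 := by simpa using h2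
        exact congrArg Sum.inr (Prod.ext h3 h1))
  have h2 : MeasurePreserving (fun (Y : ℕ × List ℕ → E) (i : ℕ) (v : List ℕ) => Y (i, v))
      (Measure.infinitePi fun _ : ℕ × List ℕ => m) (Measure.infinitePi fun _ : ℕ => PW m) := by
    refine ⟨by fun_prop, ?_⟩
    exact Measure.infinitePi_map_curry (fun (_ : ℕ) (_ : List ℕ) => m)
  have h3 := (measurePreserving_eval_infinitePi (fun _ : Unit => m) ()).prod h2
  exact h3.comp h1

/-- a set determined by the words of length `< n` -/
def Det (n : ℕ) (F : Set (List ℕ → E)) : Prop :=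
  ∀ ω ω' : List ℕ → E, (∀ v, v.length < n → ω v = ω' v) → (ω ∈ F ↔ ω' ∈ F)

theorem indep_shift [Nonempty E] {n : ℕ} {F A : Set (List ℕ → E)} (hF : MeasurableSet F)
    (hdet : Det n F) (hA : MeasurableSet A) {u : List ℕ} (hu : n ≤ u.length) :
    PW m (F ∩ {ω | shift u ω ∈ A}) = PW m F * PW m A := by
  classical
  let e0 : E := Classical.arbitrary E
  let ext : ({v : List ℕ // v.length < n} → E) → List ℕ → E := fun z v =>
    if h : v.length < n then z ⟨v, h⟩ else e0
  have hext : Measurable ext := by
    refine measurable_pi_lambda _ fun v => ?_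
    by_cases h : v.length < n
    · have : (fun z : {v : List ℕ // v.length < n} → E => ext z v) = fun z => z ⟨v, h⟩ := by
        funext z; simp only [ext, dif_pos h]
      rw [this]; exact measurable_pi_apply _
    · have : (fun z : {v : List ℕ // v.length < n} → E => ext z v) = fun _ => e0 := by
        funext z; simp only [ext, dif_neg h]
      rw [this]; exact measurable_const
  have hsp := mp_split2 m (κ₁ := {v : List ℕ // v.length < n}) (κ₂ := List ℕ) (ι := List ℕ)
    (fun o => Sum.elim (fun v => v.1) (fun v => v ++ u) o) (by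
      rintro (a | a) (b | b) h
      · exact congrArg Sum.inl (Subtype.ext h)
      · exfalso
        simp only [Sum.elim_inl, Sum.elim_inr] at h
        have h1 := a.2
        rw [h, List.length_append] at h1
        omega
      · exfalso
        simp only [Sum.elim_inl, Sum.elim_inr] at h
        have h1 := b.2
        rw [← h, List.length_append] at h1
        omega
      · simp only [Sum.elim_inr] at h
        exact congrArg Sum.inr (List.append_cancel_right h))
  set F' : Set ({v : List ℕ // v.length < n} → E) := ext ⁻¹' F with hF'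
  have hF'm : MeasurableSet F' := hext hF
  have hmem : ∀ ω : List ℕ → E, ω ∈ F ↔ (fun v : {v : List ℕ // v.length < n} => ω v.1) ∈ F' := by
    intro ω
    refine hdet ω _ fun v hv => ?_
    simp only [ext, dif_pos hv]
  have e1 : F ∩ {ω | shift u ω ∈ A} = (fun ω : List ℕ → E =>
      ((fun k : {v : List ℕ // v.length < n} => ω k.1), (fun k : List ℕ => ω (k ++ u)))) ⁻¹'
      (F' ×ˢ A) := by
    ext ω
    constructor
    · rintro ⟨h1, h2⟩
      exact ⟨(hmem ω).1 h1, h2⟩
    · rintro ⟨h1, h2⟩
      exact ⟨(hmem ω).2 h1, h2⟩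
  have e2 : F = (fun ω : List ℕ → E =>
      ((fun k : {v : List ℕ // v.length < n} => ω k.1), (fun k : List ℕ => ω (k ++ u)))) ⁻¹'
      (F' ×ˢ Set.univ) := by
    ext ω
    constructor
    · intro h1
      exact ⟨(hmem ω).1 h1, trivial⟩
    · rintro ⟨h1, h2⟩
      exact (hmem ω).2 h1
  have h1 := hsp.measure_preimage (hF'm.prod hA).nullMeasurableSet
  have h2 := hsp.measure_preimage (hF'm.prod MeasurableSet.univ).nullMeasurableSet
  rw [Measure.prod_prod] at h1 h2
  rw [measure_univ, mul_one] at h2
  have h3 : PW m F = (Measure.infinitePi fun _ : {v : List ℕ // v.length < n} => m) F' := by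
    conv_lhs => rw [e2]
    exact h2
  rw [e1, h3]
  exact h1

theorem shift_preserving (u : List ℕ) : MeasurePreserving (shift u) (PW m) (PW m) := by
  refine ⟨measurable_shift u, ?_⟩
  exact Measure.map_infinitePi_infinitePi_of_inj (P := fun _ : List ℕ => m)
    (f := fun v : List ℕ => v ++ u) (fun a b h => List.append_cancel_right h)

/-- a set which is avoided in a subtree at every level is null -/
theorem null_of_levels [Nonempty E] {B A : Set (List ℕ → E)} (hB : MeasurableSet B)
    (hA : MeasurableSet A) (hA0 : 0 < PW m A)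
    (W : ℕ → List ℕ → Set (List ℕ → E)) (hW : ∀ n u, MeasurableSet (W n u))
    (hdet : ∀ n u, Det n (W n u)) (hlen : ∀ n u, n ≤ u.length ∨ W n u = ∅)
    (hdisj : ∀ n u u', u ≠ u' → Disjoint (W n u) (W n u'))
    (hcov : ∀ n, B ⊆ ⋃ u, W n u) (havoid : ∀ n u, B ∩ W n u ∩ {ω | shift u ω ∈ A} = ∅) :
    PW m B = 0 := by
  classical
  set c := PW m A with hc
  have hc1 : c ≤ 1 := prob_le_one
  -- the basic inequality
  have key : ∀ ε : ENNReal, 0 < ε → c * PW m B ≤ ε + ε := by
    intro ε hε
    obtain ⟨B', hB', hlt⟩ := exists_measure_symmDiff_lt_of_generateFrom_isSetRing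
      (μ := PW m) (C := measurableCylinders fun _ : List ℕ => E)
      isSetRing_measurableCylinders ⟨{Set.univ}, by simp, by
        rintro _ rfl
        exact univ_mem_measurableCylinders _, by simp⟩
      (generateFrom_measurableCylinders).symm hB hε
    obtain ⟨s, S, hS, rfl⟩ := (mem_measurableCylinders _).1 hB'
    set B' : Set (List ℕ → E) := cylinder (α := fun _ : List ℕ => E) s S with hB'def
    have hB'm : MeasurableSet B' := hS.cylinder _
    set n := s.sup List.length + 1 with hn
    have hdetB : Det n B' := by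
      intro ω ω' h
      have : s.restrict ω = s.restrict ω' := by
        funext i
        exact h i.1 (lt_of_le_of_lt (Finset.le_sup (f := List.length) i.2) (Nat.lt_succ_self _))
      show s.restrict ω ∈ S ↔ s.restrict ω' ∈ S
      rw [this]
    set X : List ℕ → Set (List ℕ → E) := fun u => B' ∩ W n u with hX
    have hXm : ∀ u, MeasurableSet (X u) := fun u => hB'm.inter (hW n u)
    have hXdet : ∀ u, Det n (X u) := fun u ω ω' h =>
      and_congr (hdetB ω ω' h) (hdet n u ω ω' h)
    have hAu : ∀ u, MeasurableSet {ω : List ℕ → E | shift u ω ∈ A} := fun u =>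
      measurable_shift u hA
    have hXc : ∀ u, PW m (X u ∩ {ω | shift u ω ∈ A}) = PW m (X u) * c := by
      intro u
      rcases hlen n u with h | h
      · exact indep_shift m (hXm u) (hXdet u) hA h
      · have : X u = ∅ := by simp only [hX, h, Set.inter_empty]
        rw [this]; simp
    have hXd : Pairwise (Function.onFun Disjoint X) := fun u u' h =>
      (hdisj n u u' h).mono Set.inter_subset_right Set.inter_subset_right
    have hXd' : Pairwise (Function.onFun Disjoint fun u => X u ∩ {ω | shift u ω ∈ A}) :=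
      fun u u' h => (hXd h).mono Set.inter_subset_left Set.inter_subset_left
    have h1 : PW m (⋃ u, X u) * c = PW m (⋃ u, (X u ∩ {ω | shift u ω ∈ A})) := by
      rw [measure_iUnion hXd hXm, measure_iUnion hXd' fun u => (hXm u).inter (hAu u),
        ← ENNReal.tsum_mul_right]
      exact tsum_congr fun u => (hXc u).symm
    have h2 : (⋃ u, (X u ∩ {ω | shift u ω ∈ A})) ⊆ symmDiff B' B := by
      intro ω hω
      obtain ⟨u, ⟨h3, h4⟩, h5⟩ := Set.mem_iUnion.1 hω
      refine Or.inl ⟨h3, fun h6 => ?_⟩
      have : ω ∈ B ∩ W n u ∩ {ω | shift u ω ∈ A} := ⟨⟨h6, h4⟩, h5⟩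
      rw [havoid] at this
      exact this
    have h3 : B ⊆ (⋃ u, X u) ∪ symmDiff B' B := by
      intro ω hω
      by_cases h4 : ω ∈ B'
      · left
        obtain ⟨u, hu⟩ := Set.mem_iUnion.1 (hcov n hω)
        exact Set.mem_iUnion.2 ⟨u, h4, hu⟩
      · exact Or.inr (Or.inr ⟨hω, h4⟩)
    calc c * PW m B ≤ c * (PW m (⋃ u, X u) + PW m (symmDiff B' B)) := by
          gcongr
          exact (measure_mono h3).trans (measure_union_le _ _)
      _ = PW m (⋃ u, X u) * c + c * PW m (symmDiff B' B) := by rw [mul_add, mul_comm c]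
      _ ≤ ε + 1 * ε := by
          refine add_le_add ?_ (mul_le_mul' hc1 hlt.le)
          rw [h1]
          exact (measure_mono h2).trans hlt.le
      _ = ε + ε := by rw [one_mul]
  have h0 : c * PW m B ≤ 0 := by
    refine le_of_forall_gt_imp_ge_of_dense fun ε hε => ?_
    have := key (ε / 2) (ENNReal.half_pos hε.ne')
    rwa [ENNReal.add_halves] at this
  rcases mul_eq_zero.1 (le_antisymm h0 zero_le) with h | h
  · exact absurd h hA0.ne'
  · exact h

end words

end Pool.Agent.X136.GT
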