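import Pool.Agent.X136.GT.Quench

set_option autoImplicit false

/-!
# The integral estimate
-/

namespace Pool.Agent.X136.GT

open MeasureTheory ProbabilityTheory Filter Topology

/-- binomial weights -/
noncomputable def BW (k j : ℕ) (y : ℝ) : ℝ := (k.choose j : ℝ) * (y ^ j * (1 - y) ^ (k - j))

theorem TT_succ (k r : ℕ) (y : ℝ) : TT k (r + 1) y = TT k r y + BW k r y := by
  unfold TT BW; rw [Finset.sum_range_succ]

theorem TT_zero (k : ℕ) (y : ℝ) : TT k 0 y = 0 := by unfold TT; simp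

theorem BW_succ (k j : ℕ) (y : ℝ) : BW (k + 1) (j + 1) y = y * BW k j y + (1 - y) * BW k (j + 1) y := by
  unfold BW
  rw [Nat.choose_succ_succ, Nat.add_sub_add_right]
  push_cast
  rcases Nat.lt_or_ge j k with h | h
  · obtain ⟨m, hm⟩ : ∃ m, k - j = m + 1 := ⟨k - j - 1, by omega⟩
    have h2 : k - (j + 1) = m := by omega
    rw [hm, h2]
    ring
  · rw [Nat.choose_eq_zero_of_lt (show k < j + 1 by omega)]
    push_cast
    ring

theorem BW_succ_zero (k : ℕ) (y : ℝ) : BW (k + 1) 0 y = (1 - y) * BW k 0 y := by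
  unfold BW
  simp [pow_succ, mul_comm]

theorem TT_step (k r : ℕ) (y : ℝ) : TT (k + 1) (r + 1) y = TT k (r + 1) y - y * BW k r y := by
  induction r with
  | zero =>
    rw [TT_succ, TT_succ, TT_zero, TT_zero, BW_succ_zero]; ring
  | succ r ih =>
    rw [TT_succ, ih, BW_succ, TT_succ k (r + 1)]; ring

theorem TT_deriv (k s : ℕ) (y : ℝ) : HasDerivAt (TT k (s + 1))
    (-((s + 1 : ℕ) : ℝ) * ((k.choose (s + 1) : ℝ) * (y ^ s * (1 - y) ^ (k - (s + 1))))) y := by
  have hsub : HasDerivAt (fun y : ℝ => 1 - y) (-1) y := by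
    simpa using (hasDerivAt_id y).const_sub 1
  induction s with
  | zero =>
    have e : TT k (0 + 1) = fun y => (1 - y) ^ k := by
      funext y; rw [TT_succ, TT_zero]; unfold BW; simp
    rw [e]
    have h := hsub.fun_pow k
    refine h.congr_deriv ?_
    simp
  | succ s ih =>
    have e : TT k (s + 1 + 1) = fun y => TT k (s + 1) y +
        (k.choose (s + 1) : ℝ) * (y ^ (s + 1) * (1 - y) ^ (k - (s + 1))) := by
      funext y; rw [TT_succ]; rfl
    rw [e]
    have h1 : HasDerivAt (fun y : ℝ => y ^ (s + 1)) (((s + 1 : ℕ) : ℝ) * y ^ s) y := by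
      simpa using hasDerivAt_pow (s + 1) y
    have h2 := hsub.fun_pow (k - (s + 1))
    have h3 := (h1.fun_mul h2).const_mul (k.choose (s + 1) : ℝ)
    refine (ih.fun_add h3).congr_deriv ?_
    have h4 : ((k.choose (s + 1 + 1) : ℕ) : ℝ) * ((s + 1 + 1 : ℕ) : ℝ) =
        (k.choose (s + 1) : ℝ) * ((k - (s + 1) : ℕ) : ℝ) := by
      exact_mod_cast Nat.choose_succ_right_eq k (s + 1)
    have h5 : k - (s + 1) - 1 = k - (s + 1 + 1) := by omega
    rw [h5]
    have h6 : -((s + 1 + 1 : ℕ) : ℝ) * ((k.choose (s + 1 + 1) : ℝ) *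
        (y ^ (s + 1) * (1 - y) ^ (k - (s + 1 + 1)))) =
        -(((k.choose (s + 1 + 1) : ℕ) : ℝ) * ((s + 1 + 1 : ℕ) : ℝ)) *
          (y ^ (s + 1) * (1 - y) ^ (k - (s + 1 + 1))) := by ring
    rw [h6, h4]
    ring

theorem TT_continuous (k r : ℕ) : Continuous (TT k r) := by
  unfold TT
  fun_prop

theorem int_step (k s : ℕ) {p : ℝ} (hp0 : 0 < p) (hp1 : p < 1) :
    ∫ y in p..1, (y * BW k (s + 1) y) / y ^ 2 ≤ 1 / ((s + 1 : ℕ) : ℝ) := by
  have h1 : ∫ y in p..1, (y * BW k (s + 1) y) / y ^ 2 =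
      ∫ y in p..1, (k.choose (s + 1) : ℝ) * (y ^ s * (1 - y) ^ (k - (s + 1))) := by
    refine intervalIntegral.integral_congr fun y hy => ?_
    rw [Set.uIcc_of_le hp1.le] at hy
    have hy0 : y ≠ 0 := (lt_of_lt_of_le hp0 hy.1).ne'
    show y * BW k (s + 1) y / y ^ 2 = _
    unfold BW
    rw [pow_succ]
    field_simp
  have h2 : ∫ y in p..1, -((s + 1 : ℕ) : ℝ) *
      ((k.choose (s + 1) : ℝ) * (y ^ s * (1 - y) ^ (k - (s + 1)))) =
      TT k (s + 1) 1 - TT k (s + 1) p := by
    refine intervalIntegral.integral_eq_sub_of_hasDerivAt (fun y _ => TT_deriv k s y) ?_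
    exact (by fun_prop : Continuous fun y : ℝ => -((s + 1 : ℕ) : ℝ) *
      ((k.choose (s + 1) : ℝ) * (y ^ s * (1 - y) ^ (k - (s + 1))))).intervalIntegrable _ _
  rw [intervalIntegral.integral_const_mul] at h2
  rw [h1]
  have h3 : 0 ≤ TT k (s + 1) 1 := TT_nonneg zero_le_one le_rfl
  have h4 : TT k (s + 1) p ≤ 1 := TT_le_one hp0.le hp1.le
  have h5 : (0 : ℝ) < ((s + 1 : ℕ) : ℝ) := by positivity
  rw [le_div_iff₀ h5]
  nlinarith

theorem int_le (k s : ℕ) {p : ℝ} (hp0 : 0 < p) (hp1 : p < 1) :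
    ∫ y in p..1, (1 - TT k (s + 2) y) / y ^ 2 ≤ (k : ℝ) / ((s + 1 : ℕ) : ℝ) := by
  have hne : ∀ y ∈ Set.uIcc p 1, y ^ 2 ≠ 0 := by
    intro y hy
    rw [Set.uIcc_of_le hp1.le] at hy
    have : 0 < y := lt_of_lt_of_le hp0 hy.1
    positivity
  induction k with
  | zero =>
    have e : ∀ y, TT 0 (s + 2) y = 1 := by
      intro y
      unfold TT
      rw [Finset.sum_range_succ', Finset.sum_eq_zero]
      · simp
      · intro j _
        simp
    simp [e]
  | succ k ih =>
    have e : ∀ y, (1 - TT (k + 1) (s + 2) y) / y ^ 2 =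
        (1 - TT k (s + 2) y) / y ^ 2 + (y * BW k (s + 1) y) / y ^ 2 := by
      intro y
      rw [TT_step]; ring
    simp only [e]
    have hc1 : ContinuousOn (fun y : ℝ => (1 - TT k (s + 2) y) / y ^ 2) (Set.uIcc p 1) :=
      (continuous_const.sub (TT_continuous k _)).continuousOn.div (by fun_prop) hne
    have hc2 : ContinuousOn (fun y : ℝ => (y * BW k (s + 1) y) / y ^ 2) (Set.uIcc p 1) := by
      refine ContinuousOn.div ?_ (by fun_prop) hne
      unfold BW
      fun_prop
    rw [intervalIntegral.integral_add hc1.intervalIntegrable hc2.intervalIntegrable]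
    have h1 := int_step k s hp0 hp1
    push_cast at *
    rw [add_div]
    linarith

theorem int_low {p : ℝ} (hp0 : 0 < p) (hp1 : p < 1) :
    ∫ y in p..1, (y - p) / y ^ 2 = p - 1 - Real.log p := by
  have h : ∀ y ∈ Set.uIcc p 1, HasDerivAt (fun y => Real.log y + p / y) ((y - p) / y ^ 2) y := by
    intro y hy
    rw [Set.uIcc_of_le hp1.le] at hy
    have hy0 : y ≠ 0 := (lt_of_lt_of_le hp0 hy.1).ne'
    have h1 := Real.hasDerivAt_log hy0
    have h2 := (hasDerivAt_inv hy0).const_mul p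
    refine (h1.fun_add h2).congr_deriv ?_
    field_simp
    ring
  rw [intervalIntegral.integral_eq_sub_of_hasDerivAt h]
  · rw [Real.log_one]
    field_simp
    ring
  · refine ContinuousOn.intervalIntegrable ?_
    refine ContinuousOn.div (by fun_prop) (by fun_prop) fun y hy => ?_
    rw [Set.uIcc_of_le hp1.le] at hy
    have : 0 < y := lt_of_lt_of_le hp0 hy.1
    positivity

/-- complementary sums -/
theorem sum_compl (ν : PMF ℕ) (r : ℕ) {y : ℝ} (h0 : 0 ≤ y) (h1 : y ≤ 1) :
    (∑' k : ℕ, ν k * ENNReal.ofReal (1 - TT k r y)) +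
      ∑' k : ℕ, ν k * ENNReal.ofReal (TT k r y) = 1 := by
  rw [← ENNReal.tsum_add, ← ν.tsum_coe]
  refine tsum_congr fun k => ?_
  rw [← mul_add, ← ENNReal.ofReal_add (by linarith [TT_le_one (k := k) (r := r) h0 h1])
    (TT_nonneg h0 h1)]
  simp

theorem sum_ge (ν : PMF ℕ) (r : ℕ) {p y : ℝ} (hp0 : 0 < p) (hp1 : p < 1) (hy : p ≤ y) (hy1 : y < 1)
    (hcon : ∀ x : ℝ, 0 < x → x ≤ 1 → ¬ (ENNReal.ofReal x ≤ ENNReal.ofReal (1 - p) *
        ∑' k : ℕ, ν k * ENNReal.ofReal (TT k r (1 - x)))) :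
    ENNReal.ofReal (y - p) ≤ ∑' k : ℕ, ν k * ENNReal.ofReal (1 - TT k r y) := by
  have h1 := hcon (1 - y) (by linarith) (by linarith)
  rw [sub_sub_cancel, not_le] at h1
  set a := ∑' k : ℕ, ν k * ENNReal.ofReal (TT k r y) with ha
  set S := ∑' k : ℕ, ν k * ENNReal.ofReal (1 - TT k r y) with hS
  have h2 : S + a = 1 := sum_compl ν r (by linarith) hy1.le
  have hp1' : (0 : ℝ) < 1 - p := by linarith
  have h3 : a ≤ ENNReal.ofReal ((1 - y) / (1 - p)) := by
    rw [ENNReal.ofReal_div_of_pos hp1', ENNReal.le_div_iff_mul_le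
      (Or.inl (ENNReal.ofReal_pos.2 hp1').ne') (Or.inl ENNReal.ofReal_ne_top), mul_comm]
    exact h1.le
  have h4 : ENNReal.ofReal ((y - p) / (1 - p)) + ENNReal.ofReal ((1 - y) / (1 - p)) ≤
      S + ENNReal.ofReal ((1 - y) / (1 - p)) := by
    rw [← ENNReal.ofReal_add (div_nonneg (by linarith) hp1'.le)
      (div_nonneg (by linarith) hp1'.le), ← add_div]
    have : (y - p + (1 - y)) / (1 - p) = 1 := by field_simp; ring
    rw [this, ENNReal.ofReal_one, ← h2]
    gcongr
  have h5 := (ENNReal.add_le_add_iff_right ENNReal.ofReal_ne_top).1 h4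
  refine le_trans (ENNReal.ofReal_le_ofReal ?_) h5
  rw [le_div_iff₀ hp1']
  nlinarith

/-- **Main estimate.** -/
theorem pc_ge_exp (ν : PMF ℕ) (s : ℕ) {b : ℝ} (hb : 0 ≤ b)
    (hmean : ∑' k : ℕ, ν k * (k : ENNReal) = ENNReal.ofReal b) :
    ∀ᵐ Z ∂GW ν, {u | InTree Z u}.Infinite →
      Real.exp (-1) * Real.exp (-b / ((s + 1 : ℕ) : ℝ)) ≤ pc (tree Z) (s + 2) := by
  have hs : (0 : ℝ) < ((s + 1 : ℕ) : ℝ) := by positivity
  rw [← Real.exp_add]
  refine pc_ge ν (by omega) ?_ ?_
  · rw [Real.exp_le_one_iff]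
    have : 0 ≤ b / ((s + 1 : ℕ) : ℝ) := by positivity
    rw [neg_div]
    linarith
  · intro p hp0 hpp
    have hexp1 : Real.exp (-1 + -b / ((s + 1 : ℕ) : ℝ)) ≤ 1 := by
      rw [Real.exp_le_one_iff, neg_div]
      have : 0 ≤ b / ((s + 1 : ℕ) : ℝ) := by positivity
      linarith
    have hp1 : p < 1 := lt_of_lt_of_le hpp hexp1
    by_contra hcon
    push Not at hcon
    have hcon' : ∀ x : ℝ, 0 < x → x ≤ 1 → ¬ (ENNReal.ofReal x ≤ ENNReal.ofReal (1 - p) *
        ∑' k : ℕ, ν k * ENNReal.ofReal (TT k (s + 2) (1 - x))) := fun x h1 h2 =>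
      not_le.2 (hcon x h1 h2)
    -- the integrals
    have hne : ∀ y ∈ Set.Icc p 1, y ^ 2 ≠ 0 := by
      intro y hy
      have : 0 < y := lt_of_lt_of_le hp0 hy.1
      positivity
    have hIl : IntegrableOn (fun y : ℝ => (y - p) / y ^ 2) (Set.Ioo p 1) := by
      have : ContinuousOn (fun y : ℝ => (y - p) / y ^ 2) (Set.Icc p 1) :=
        ContinuousOn.div (by fun_prop) (by fun_prop) hne
      exact this.integrableOn_Icc.mono_set Set.Ioo_subset_Icc_self
    have hIk : ∀ k, IntegrableOn (fun y : ℝ => (1 - TT k (s + 2) y) / y ^ 2) (Set.Ioo p 1) := by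
      intro k
      have : ContinuousOn (fun y : ℝ => (1 - TT k (s + 2) y) / y ^ 2) (Set.Icc p 1) :=
        (continuous_const.sub (TT_continuous k _)).continuousOn.div (by fun_prop) hne
      exact this.integrableOn_Icc.mono_set Set.Ioo_subset_Icc_self
    have hL : ∫⁻ y in Set.Ioo p 1, ENNReal.ofReal ((y - p) / y ^ 2) =
        ENNReal.ofReal (p - 1 - Real.log p) := by
      rw [← int_low hp0 hp1, intervalIntegral.integral_of_le hp1.le, integral_Ioc_eq_integral_Ioo,
        ofReal_integral_eq_lintegral_ofReal hIl]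
      refine (ae_restrict_iff' measurableSet_Ioo).2 (Eventually.of_forall fun y hy => ?_)
      exact div_nonneg (by linarith [hy.1]) (sq_nonneg _)
    have hK : ∀ k : ℕ, ∫⁻ y in Set.Ioo p 1, ENNReal.ofReal ((1 - TT k (s + 2) y) / y ^ 2) ≤
        ENNReal.ofReal ((k : ℝ) / ((s + 1 : ℕ) : ℝ)) := by
      intro k
      rw [← ofReal_integral_eq_lintegral_ofReal (hIk k)]
      · refine ENNReal.ofReal_le_ofReal ?_
        rw [← integral_Ioc_eq_integral_Ioo, ← intervalIntegral.integral_of_le hp1.le]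
        exact int_le k s hp0 hp1
      · refine (ae_restrict_iff' measurableSet_Ioo).2 (Eventually.of_forall fun y hy => ?_)
        have : TT k (s + 2) y ≤ 1 := TT_le_one (by linarith [hy.1]) hy.2.le
        exact div_nonneg (by linarith) (sq_nonneg _)
    have hmain : ENNReal.ofReal (p - 1 - Real.log p) ≤ ENNReal.ofReal (b / ((s + 1 : ℕ) : ℝ)) := by
      calc ENNReal.ofReal (p - 1 - Real.log p)
          = ∫⁻ y in Set.Ioo p 1, ENNReal.ofReal ((y - p) / y ^ 2) := hL.symm
        _ ≤ ∫⁻ y in Set.Ioo p 1, ∑' k : ℕ, ν k * ENNReal.ofReal ((1 - TT k (s + 2) y) / y ^ 2) := by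
            refine setLIntegral_mono' measurableSet_Ioo fun y hy => ?_
            have hy2 : 0 < y ^ 2 := by
              have : 0 < y := lt_trans hp0 hy.1
              positivity
            have h1 := sum_ge ν (s + 2) hp0 hp1 hy.1.le hy.2 hcon'
            rw [div_eq_mul_inv, ENNReal.ofReal_mul (by linarith [hy.1])]
            calc ENNReal.ofReal (y - p) * ENNReal.ofReal (y ^ 2)⁻¹
                ≤ (∑' k : ℕ, ν k * ENNReal.ofReal (1 - TT k (s + 2) y)) *
                  ENNReal.ofReal (y ^ 2)⁻¹ := by gcongr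
              _ = ∑' k : ℕ, ν k * ENNReal.ofReal ((1 - TT k (s + 2) y) / y ^ 2) := by
                  rw [← ENNReal.tsum_mul_right]
                  refine tsum_congr fun k => ?_
                  have : TT k (s + 2) y ≤ 1 := TT_le_one (by linarith [hy.1]) hy.2.le
                  rw [mul_assoc, div_eq_mul_inv, ENNReal.ofReal_mul (by linarith)]
        _ = ∑' k : ℕ, ∫⁻ y in Set.Ioo p 1,
              ν k * ENNReal.ofReal ((1 - TT k (s + 2) y) / y ^ 2) := by
            refine lintegral_tsum fun k => ?_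
            refine Measurable.aemeasurable (Measurable.const_mul ?_ _)
            have : Measurable (TT k (s + 2)) := (TT_continuous k _).measurable
            fun_prop
        _ ≤ ∑' k : ℕ, ν k * ENNReal.ofReal ((k : ℝ) / ((s + 1 : ℕ) : ℝ)) := by
            refine ENNReal.tsum_le_tsum fun k => ?_
            rw [lintegral_const_mul]
            · exact mul_le_mul' le_rfl (hK k)
            · have : Measurable (TT k (s + 2)) := (TT_continuous k _).measurable
              fun_prop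
        _ = ENNReal.ofReal (b / ((s + 1 : ℕ) : ℝ)) := by
            rw [div_eq_mul_inv b, ENNReal.ofReal_mul hb, ← hmean, ← ENNReal.tsum_mul_right]
            refine tsum_congr fun k => ?_
            rw [div_eq_mul_inv, ENNReal.ofReal_mul (Nat.cast_nonneg k), ENNReal.ofReal_natCast,
              mul_assoc]
    have hfin := (ENNReal.ofReal_le_ofReal_iff (by positivity)).1 hmain
    have h6 : -1 + -b / ((s + 1 : ℕ) : ℝ) < Real.log p := by
      rw [neg_div]; linarith
    have h7 := Real.exp_lt_exp.2 h6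
    rw [Real.exp_log hp0] at h7
    linarith

end Pool.Agent.X136.GT
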