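import Pool.Agent.X136.GT.Quench

set_option autoImplicit false

/-!
# Subcritical Galton-Watson trees are finite
-/

namespace Pool.Agent.X136.GT

open MeasureTheory ProbabilityTheory Filter Topology

theorem InTree_append (Z : Env) (i : ℕ) : ∀ v : List ℕ,
    InTree Z (v ++ [i]) ↔ i < Z [] ∧ InTree (shift [i] Z) v
  | [] => by
    show (True ∧ i < Z []) ↔ i < Z [] ∧ True
    tauto
  | j :: v => by
    show (InTree Z (v ++ [i]) ∧ j < Z (v ++ [i])) ↔
      i < Z [] ∧ (InTree (shift [i] Z) v ∧ j < Z (v ++ [i]))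
    rw [InTree_append Z i v]
    tauto

/-- level `n` is reached -/
def Reach (n : ℕ) : Set (List ℕ → ℕ) := {Z | ∃ u, InTree Z u ∧ u.length = n}

theorem measurable_InTree' (u : List ℕ) : MeasurableSet {Z : Env | InTree Z u} := by
  induction u with
  | nil => exact MeasurableSet.univ
  | cons i u ih =>
    have h1 : Measurable fun Z : Env => Z u := measurable_pi_apply _
    exact ih.inter (h1 (t := {n | i < n}) (MeasurableSet.of_discrete))

theorem measurable_Reach (n : ℕ) : MeasurableSet (Reach n) := by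
  have : Reach n = ⋃ u : List ℕ, ({Z : Env | InTree Z u} ∩ {_Z | u.length = n}) := by
    ext Z
    simp [Reach]
  rw [this]
  exact MeasurableSet.iUnion fun u => (measurable_InTree' u).inter (MeasurableSet.const _)

theorem sum_tail (ν : PMF ℕ) : ∑' i : ℕ, ν.toMeasure {k | i < k} =
    ∑' k : ℕ, ν k * (k : ENNReal) := by
  have h1 : ∀ i : ℕ, ν.toMeasure {k | i < k} =
      ∑' k : ℕ, (if i < k then ν k else 0) := by
    intro i
    rw [PMF.toMeasure_apply _ (hs := MeasurableSet.of_discrete)]
    refine tsum_congr fun k => ?_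
    simp [Set.indicator_apply]
  simp only [h1]
  rw [ENNReal.tsum_comm]
  refine tsum_congr fun k => ?_
  rw [tsum_eq_sum (s := Finset.range k)]
  · rw [Finset.sum_congr rfl (g := fun _ => ν k)]
    · rw [Finset.sum_const, Finset.card_range, nsmul_eq_mul, mul_comm]
    · intro i hi
      rw [if_pos (Finset.mem_range.1 hi)]
  · intro i hi
    rw [if_neg (by simpa using hi)]

theorem reach_le (ν : PMF ℕ) (n : ℕ) :
    GW ν (Reach n) ≤ (∑' k : ℕ, ν k * (k : ENNReal)) ^ n := by
  have hp : IsProbabilityMeasure (GW ν) := by unfold GW; infer_instance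
  induction n with
  | zero => simpa using prob_le_one
  | succ n ih =>
    have h1 : Reach (n + 1) ⊆ ⋃ i : ℕ, ({Z : Env | i < Z []} ∩ {Z | shift [i] Z ∈ Reach n}) := by
      rintro Z ⟨u, hu, hl⟩
      obtain ⟨v, i, rfl⟩ : ∃ v i, u = v ++ [i] := by
        have hne : u ≠ [] := by rintro rfl; simp at hl
        exact ⟨u.dropLast, u.getLast hne, (List.dropLast_append_getLast hne).symm⟩
      obtain ⟨h2, h3⟩ := (InTree_append Z i v).1 hu
      exact Set.mem_iUnion.2 ⟨i, h2, v, h3, by simpa using hl⟩
    have h2 : ∀ i : ℕ, GW ν ({Z : Env | i < Z []} ∩ {Z | shift [i] Z ∈ Reach n}) =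
        ν.toMeasure {k | i < k} * GW ν (Reach n) := by
      intro i
      have hm : MeasurableSet {Z : Env | i < Z []} := by
        have h1 : Measurable fun Z : Env => Z [] := measurable_pi_apply _
        exact h1 (t := {n | i < n}) (MeasurableSet.of_discrete)
      have h3 := indep_shift ν.toMeasure (n := 1) (F := {Z : Env | i < Z []}) hm
        (by
          intro Z Z' h
          show i < Z [] ↔ i < Z' []
          rw [h [] (by simp)]) (measurable_Reach n) (u := [i]) (by simp)
      have h4 := (measurePreserving_eval_infinitePi (fun _ : List ℕ => ν.toMeasure) []).measure_preimage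
        (s := {k | i < k}) (MeasurableSet.of_discrete).nullMeasurableSet
      have h5 : GW ν {Z : Env | i < Z []} = ν.toMeasure {k | i < k} := h4
      rw [← h5]
      exact h3
    calc GW ν (Reach (n + 1)) ≤ ∑' i : ℕ, GW ν ({Z : Env | i < Z []} ∩ {Z | shift [i] Z ∈ Reach n}) :=
          (measure_mono h1).trans (measure_iUnion_le _)
      _ = (∑' k : ℕ, ν k * (k : ENNReal)) * GW ν (Reach n) := by
          simp only [h2]
          rw [ENNReal.tsum_mul_right, sum_tail]
      _ ≤ (∑' k : ℕ, ν k * (k : ENNReal)) * (∑' k : ℕ, ν k * (k : ENNReal)) ^ n := by gcongr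
      _ = _ := by rw [pow_succ, mul_comm]

theorem finite_of_mean_lt_one (ν : PMF ℕ) (h : ∑' k : ℕ, ν k * (k : ENNReal) < 1) :
    ∀ᵐ Z ∂GW ν, ¬ {u | InTree Z u}.Infinite := by
  rw [ae_iff]
  simp only [not_not]
  have h1 : ∀ n, GW ν {Z | {u | InTree Z u}.Infinite} ≤
      (∑' k : ℕ, ν k * (k : ENNReal)) ^ n := by
    intro n
    refine le_trans (measure_mono ?_) (reach_le ν n)
    intro Z hZ
    obtain ⟨u, h1, h2⟩ := exists_level hZ n
    exact ⟨u, h1, h2⟩
  have h2 := ENNReal.tendsto_pow_atTop_nhds_zero_of_lt_one h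
  exact le_antisymm (ge_of_tendsto' h2 h1) zero_le

end Pool.Agent.X136.GT
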