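import Pool.Agent.X136.GT.Ana1
import Pool.Agent.X136.GT.Sub

set_option autoImplicit false

/-!
# The moment bound
-/

namespace Pool.Agent.X136.GT

open MeasureTheory ProbabilityTheory Filter Topology

theorem BW_le {k j : ℕ} {y : ℝ} (h0 : 0 ≤ y) (h1 : y ≤ 1) :
    BW k j y ≤ (k.choose j : ℝ) * y ^ j := by
  unfold BW
  have h2 : (1 - y) ^ (k - j) ≤ 1 := pow_le_one₀ (by linarith) (by linarith)
  have h3 : 0 ≤ y ^ j := pow_nonneg h0 j
  gcongr
  nlinarith

theorem tail_le_choose {y : ℝ} (h0 : 0 ≤ y) (h1 : y ≤ 1) (k : ℕ) : ∀ r : ℕ,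
    1 - TT k r y ≤ (k.choose r : ℝ) * y ^ r := by
  induction k with
  | zero =>
    intro r
    cases r with
    | zero => simp [TT_zero]
    | succ r =>
      have e : TT 0 (r + 1) y = 1 := by
        unfold TT
        rw [Finset.sum_range_succ', Finset.sum_eq_zero]
        · simp
        · intro j _
          simp
      rw [e]
      simp
  | succ k ih =>
    intro r
    cases r with
    | zero => simp [TT_zero]
    | succ r =>
      rw [TT_step, Nat.choose_succ_succ]
      have h2 := ih (r + 1)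
      have h3 := mul_le_mul_of_nonneg_left (BW_le (k := k) (j := r) h0 h1) h0
      push_cast
      rw [pow_succ] at h2 ⊢
      nlinarith

theorem tail_le_rpow {r : ℕ} {a : ℝ} (ha : 0 < a) (har : 1 + a ≤ r) {y : ℝ} (h0 : 0 < y)
    (h1 : y ≤ 1) (k : ℕ) : 1 - TT k r y ≤ ((k : ℝ) * y) ^ (1 + a) := by
  rcases le_or_gt 1 ((k : ℝ) * y) with h | h
  · have h2 : 0 ≤ TT k r y := TT_nonneg h0.le h1
    have h3 := Real.one_le_rpow h (show (0 : ℝ) ≤ 1 + a by linarith)
    linarith
  · rcases Nat.eq_zero_or_pos k with hk | hk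
    · subst hk
      have hr : r ≠ 0 := by
        rintro rfl
        simp at har; linarith
      obtain ⟨s, rfl⟩ : ∃ s, r = s + 1 := ⟨r - 1, by omega⟩
      have := tail_le_choose h0.le h1 0 (s + 1)
      simp at this
      have h4 : (0 : ℝ) ≤ (((0 : ℕ) : ℝ) * y) ^ (1 + a) := by positivity
      linarith
    · have hky : 0 < (k : ℝ) * y := by positivity
      calc 1 - TT k r y ≤ (k.choose r : ℝ) * y ^ r := tail_le_choose h0.le h1 k r
        _ ≤ (k : ℝ) ^ r * y ^ r := by
            gcongr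
            exact_mod_cast Nat.choose_le_pow k r
        _ = ((k : ℝ) * y) ^ (r : ℝ) := by rw [Real.rpow_natCast, mul_pow]
        _ ≤ ((k : ℝ) * y) ^ (1 + a) := Real.rpow_le_rpow_of_exponent_ge hky h.le har

/-- **The moment bound.** -/
theorem pc_ge_moment (ν : PMF ℕ) {r : ℕ} (hr : 2 ≤ r) {a : ℝ} (ha : 0 < a) (har : 1 + a ≤ r) :
    ∀ᵐ Z ∂GW ν, {u | InTree Z u}.Infinite →
      ENNReal.ofReal (((2 : ℝ) ^ (1 + a)) ^ (-1 / a)) *
        (∑' k : ℕ, ν k * (k : ENNReal) ^ (1 + a)) ^ (-1 / a) ≤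
      ENNReal.ofReal (pc (tree Z) r) := by
  set E := ∑' k : ℕ, ν k * (k : ENNReal) ^ (1 + a) with hE
  have hexp : -1 / a < 0 := div_neg_of_neg_of_pos (by norm_num) ha
  by_cases htop : E = ⊤
  · refine Eventually.of_forall fun Z _ => ?_
    rw [htop, ENNReal.top_rpow_of_neg hexp, mul_zero]
    exact zero_le
  by_cases hlt : E < 1
  · have h1 : ∑' k : ℕ, ν k * (k : ENNReal) ≤ E := by
      refine ENNReal.tsum_le_tsum fun k => ?_
      gcongr
      rcases Nat.eq_zero_or_pos k with hk | hk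
      · subst hk; simp
      · have h2 : (1 : ENNReal) ≤ (k : ENNReal) := by exact_mod_cast hk
        calc (k : ENNReal) = (k : ENNReal) ^ (1 : ℝ) := (ENNReal.rpow_one _).symm
          _ ≤ (k : ENNReal) ^ (1 + a) := ENNReal.rpow_le_rpow_of_exponent_le h2 (by linarith)
    filter_upwards [finite_of_mean_lt_one ν (lt_of_le_of_lt h1 hlt)] with Z hZ hinf
    exact absurd hinf hZ
  push Not at hlt
  obtain ⟨e, he0, heE⟩ : ∃ e : ℝ, 0 ≤ e ∧ E = ENNReal.ofReal e :=
    ⟨E.toReal, ENNReal.toReal_nonneg, (ENNReal.ofReal_toReal htop).symm⟩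
  have he1 : 1 ≤ e := by
    rw [heE] at hlt
    exact ENNReal.one_le_ofReal.1 hlt
  have hB : (0 : ℝ) < 2 ^ (1 + a) := Real.rpow_pos_of_pos two_pos _
  have hBe : 0 < 2 ^ (1 + a) * e := by positivity
  set p0 : ℝ := (2 ^ (1 + a) * e) ^ (-1 / a) with hp0def
  have hp0pos : 0 < p0 := Real.rpow_pos_of_pos hBe _
  have hp0a : p0 ^ a = (2 ^ (1 + a) * e)⁻¹ := by
    rw [hp0def, ← Real.rpow_mul hBe.le, div_mul_cancel₀ _ ha.ne', Real.rpow_neg_one]
  have hp0half : p0 ≤ 1 / 2 := by
    have h1 : p0 ^ a ≤ (1 / 2 : ℝ) ^ a := by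
      rw [hp0a, one_div, Real.inv_rpow two_pos.le]
      refine inv_anti₀ (Real.rpow_pos_of_pos two_pos _) ?_
      have h2 : (2 : ℝ) ^ a ≤ 2 ^ (1 + a) :=
        Real.rpow_le_rpow_of_exponent_le (by norm_num) (by linarith)
      nlinarith
    exact (Real.rpow_le_rpow_iff hp0pos.le (by norm_num) ha).1 h1
  have hmain := pc_ge ν hr (p0 := p0) (by linarith) (by
    intro p hpp hpl
    have h2p : 2 * p < 1 := by linarith
    refine ⟨1 - 2 * p, by linarith, by linarith, ?_⟩
    rw [sub_sub_cancel]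
    set A := ∑' k : ℕ, ν k * ENNReal.ofReal (TT k r (2 * p)) with hA
    set S := ∑' k : ℕ, ν k * ENNReal.ofReal (1 - TT k r (2 * p)) with hS
    have hSA : S + A = 1 := sum_compl ν r (by linarith) h2p.le
    have hSle : S ≤ ENNReal.ofReal p := by
      calc S ≤ ∑' k : ℕ, ν k * ((k : ENNReal) ^ (1 + a) *
              ENNReal.ofReal ((2 * p) ^ (1 + a))) := by
            refine ENNReal.tsum_le_tsum fun k => ?_
            gcongr
            calc ENNReal.ofReal (1 - TT k r (2 * p))
                ≤ ENNReal.ofReal (((k : ℝ) * (2 * p)) ^ (1 + a)) :=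
                  ENNReal.ofReal_le_ofReal (tail_le_rpow ha har (by linarith) h2p.le k)
              _ = (k : ENNReal) ^ (1 + a) * ENNReal.ofReal ((2 * p) ^ (1 + a)) := by
                  rw [Real.mul_rpow (Nat.cast_nonneg k) (by linarith),
                    ENNReal.ofReal_mul (Real.rpow_nonneg (Nat.cast_nonneg k) _),
                    ← ENNReal.ofReal_rpow_of_nonneg (Nat.cast_nonneg k) (by linarith),
                    ENNReal.ofReal_natCast]
        _ = E * ENNReal.ofReal ((2 * p) ^ (1 + a)) := by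
            rw [hE, ← ENNReal.tsum_mul_right]
            exact tsum_congr fun k => (mul_assoc _ _ _).symm
        _ = ENNReal.ofReal (e * (2 * p) ^ (1 + a)) := by
            rw [heE, ENNReal.ofReal_mul he0]
        _ ≤ ENNReal.ofReal p := by
            refine ENNReal.ofReal_le_ofReal ?_
            have h1 : p ^ a ≤ (2 ^ (1 + a) * e)⁻¹ := by
              rw [← hp0a]
              exact Real.rpow_le_rpow hpp.le hpl.le ha.le
            have h2 : p ^ (1 + a) = p * p ^ a := by
              rw [Real.rpow_add hpp, Real.rpow_one]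
            rw [Real.mul_rpow two_pos.le hpp.le, h2]
            calc e * (2 ^ (1 + a) * (p * p ^ a)) = p * ((2 ^ (1 + a) * e) * p ^ a) := by ring
              _ ≤ p * ((2 ^ (1 + a) * e) * (2 ^ (1 + a) * e)⁻¹) := by gcongr
              _ = p := by rw [mul_inv_cancel₀ hBe.ne', mul_one]
    have hAge : ENNReal.ofReal (1 - p) ≤ A := by
      have h1 : ENNReal.ofReal p + ENNReal.ofReal (1 - p) ≤ ENNReal.ofReal p + A := by
        rw [← ENNReal.ofReal_add hpp.le (by linarith)]
        calc ENNReal.ofReal (p + (1 - p)) = S + A := by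
              rw [hSA, add_sub_cancel, ENNReal.ofReal_one]
          _ ≤ ENNReal.ofReal p + A := by gcongr
      exact (ENNReal.add_le_add_iff_left ENNReal.ofReal_ne_top).1 h1
    calc ENNReal.ofReal (1 - 2 * p) ≤ ENNReal.ofReal ((1 - p) * (1 - p)) := by
          refine ENNReal.ofReal_le_ofReal ?_
          nlinarith
      _ = ENNReal.ofReal (1 - p) * ENNReal.ofReal (1 - p) := ENNReal.ofReal_mul (by linarith)
      _ ≤ ENNReal.ofReal (1 - p) * A := by gcongr)
  filter_upwards [hmain] with Z hZ hinf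
  have h1 := hZ hinf
  rw [heE, ENNReal.ofReal_rpow_of_pos (by linarith), ← ENNReal.ofReal_mul (by positivity),
    ← Real.mul_rpow hB.le he0]
  exact ENNReal.ofReal_le_ofReal h1

end Pool.Agent.X136.GT
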