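import Pool.Agent.X136.GT.Bin
import Pool.Agent.X136.GT.Down

set_option autoImplicit false

/-!
# The annealed process
-/

namespace Pool.Agent.X136.GT

open MeasureTheory ProbabilityTheory Filter Topology

/-- number of children and uniform variable -/
abbrev EE : Type := ℕ × unitInterval

/-- the law at a vertex -/
noncomputable def mm (ν : PMF ℕ) : Measure EE := ν.toMeasure.prod volume

instance (ν : PMF ℕ) : IsProbabilityMeasure (mm ν) := by unfold mm; infer_instance

/-- the environment -/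
def ZZ (ω : List ℕ → EE) : Env := fun v => (ω v).1

/-- initially infected -/
def aa (p : unitInterval) (ω : List ℕ → EE) : List ℕ → Prop := fun v => (ω v).2 < p

/-- root healthy after `n` steps -/
def DDs (r : ℕ) (p : unitInterval) (n : ℕ) : Set (List ℕ → EE) := {ω | DD r n (ZZ ω) (aa p ω)}

/-- root healthy for ever -/
def DIs (r : ℕ) (p : unitInterval) : Set (List ℕ → EE) := {ω | DI r (ZZ ω) (aa p ω)}

/-- root and children healthy -/
def AAs (r : ℕ) (p : unitInterval) : Set (List ℕ → EE) := {ω | AA r (ZZ ω) (aa p ω)}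

/-- the generic event at the root -/
def RE (r : ℕ) (p : unitInterval) (B : Set (List ℕ → EE)) : Set (List ℕ → EE) :=
  {ω | ¬ (ω []).2 < p ∧ (fun i : ℕ => shift [i] ω) ∈ CC (ω []).1 r B}

theorem DDs_succ (r : ℕ) (p : unitInterval) (n : ℕ) : DDs r p (n + 1) = RE r p (DDs r p n) := rfl

theorem AAs_eq (r : ℕ) (p : unitInterval) : AAs r p = RE 1 p (DIs r p) := by
  ext ω
  constructor
  · rintro ⟨h1, h2⟩
    refine ⟨h1, fun S hS => ?_⟩
    rw [Nat.lt_one_iff, Finset.card_eq_zero]
    by_contra hne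
    obtain ⟨i, hi⟩ := Finset.nonempty_iff_ne_empty.2 hne
    exact (hS i hi).2 (h2 i (hS i hi).1)
  · rintro ⟨h1, h2⟩
    refine ⟨h1, fun i hi => ?_⟩
    by_contra hcon
    have := h2 {i} (by
      intro j hj
      rw [Finset.mem_singleton.1 hj]
      exact ⟨hi, hcon⟩)
    simp at this

/-- the set in the split space -/
def RS (r : ℕ) (p : unitInterval) (B : Set (List ℕ → EE)) : Set (EE × (ℕ → (List ℕ → EE))) :=
  {q | ¬ q.1.2 < p ∧ q.2 ∈ CC q.1.1 r B}

theorem measurable_RS (r : ℕ) (p : unitInterval) {B : Set (List ℕ → EE)} (hB : MeasurableSet B) :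
    MeasurableSet (RS r p B) := by
  have : RS r p B = {q | ¬ q.1.2 < p} ∩ ⋃ k : ℕ, ({q | q.1.1 = k} ∩ {q | q.2 ∈ CC k r B}) := by
    ext q
    constructor
    · rintro ⟨h1, h2⟩
      exact ⟨h1, Set.mem_iUnion.2 ⟨q.1.1, rfl, h2⟩⟩
    · rintro ⟨h1, h2⟩
      obtain ⟨k, h3, h4⟩ := Set.mem_iUnion.1 h2
      refine ⟨h1, ?_⟩
      have h3' : q.1.1 = k := h3
      rw [h3']; exact h4
  rw [this]
  refine MeasurableSet.inter ?_ (MeasurableSet.iUnion fun k => MeasurableSet.inter ?_ ?_)
  · have : Measurable fun q : EE × (ℕ → (List ℕ → EE)) => q.1.2 := by fun_prop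
    exact (this measurableSet_Iio).compl
  · have : Measurable fun q : EE × (ℕ → (List ℕ → EE)) => q.1.1 := by fun_prop
    exact this (measurableSet_singleton k)
  · exact measurable_snd (measurable_CC k r hB)

theorem measurable_RE (r : ℕ) (p : unitInterval) {B : Set (List ℕ → EE)} (hB : MeasurableSet B) :
    MeasurableSet (RE r p B) := by
  have h1 : Measurable (fun ω : List ℕ → EE => (ω [], fun i : ℕ => shift [i] ω)) := by
    refine (measurable_pi_apply _).prodMk (measurable_pi_lambda _ fun i => measurable_shift [i])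
  exact h1 (measurable_RS r p hB)

theorem prob_RE (ν : PMF ℕ) (r : ℕ) (p : unitInterval) {B : Set (List ℕ → EE)}
    (hB : MeasurableSet B) {y : ℝ} (hy0 : 0 ≤ y) (hy1 : y ≤ 1)
    (hy : PW (mm ν) Bᶜ = ENNReal.ofReal y) :
    PW (mm ν) (RE r p B) =
      ENNReal.ofReal (1 - p) * ∑' k : ℕ, ν k * ENNReal.ofReal (TT k r y) := by
  have h1 := (mp_root (mm ν)).measure_preimage (measurable_RS r p hB).nullMeasurableSet
  have h2 : (fun ω : List ℕ → EE => (ω [], fun i : ℕ => shift [i] ω)) ⁻¹' (RS r p B) =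
      RE r p B := rfl
  rw [h2] at h1
  rw [h1, Measure.prod_apply (measurable_RS r p hB)]
  have h3 : ∀ e : EE, (Measure.infinitePi fun _ : ℕ => PW (mm ν)) (Prod.mk e ⁻¹' (RS r p B)) =
      ENNReal.ofReal (TT e.1 r y) * (Set.Ici p).indicator 1 e.2 := by
    intro e
    by_cases he : e.2 < p
    · have e1 : Prod.mk e ⁻¹' (RS r p B) = ∅ := by
        ext z
        simp only [Set.mem_preimage, Set.mem_empty_iff_false, iff_false]
        exact fun h => h.1 he
      rw [e1, measure_empty, Set.indicator_of_notMem (by simpa using he), mul_zero]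
    · have e1 : Prod.mk e ⁻¹' (RS r p B) = CC e.1 r B := by
        ext z
        exact ⟨fun h => h.2, fun h => ⟨he, h⟩⟩
      rw [e1, Set.indicator_of_mem (by simpa using he), CC_prob _ _ _ hB hy0 hy1 hy]
      simp
  simp only [h3]
  unfold mm
  rw [lintegral_prod_mul (f := fun k : ℕ => ENNReal.ofReal (TT k r y))
    (g := (Set.Ici p).indicator 1) (Measurable.of_discrete.aemeasurable)
    ((measurable_one.indicator measurableSet_Ici).aemeasurable)]
  rw [lintegral_indicator_one measurableSet_Ici, unitInterval.volume_Ici, mul_comm]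
  congr 1
  rw [lintegral_countable']
  refine tsum_congr fun k => ?_
  rw [PMF.toMeasure_apply_singleton _ _ (measurableSet_singleton k), mul_comm]

theorem measurable_DDs (r : ℕ) (p : unitInterval) (n : ℕ) : MeasurableSet (DDs r p n) := by
  induction n with
  | zero =>
    have h1 : Measurable fun ω : List ℕ → EE => (ω []).2 := (measurable_pi_apply _).snd
    exact (h1 measurableSet_Iio).compl
  | succ n ih =>
    rw [DDs_succ]
    exact measurable_RE r p ih

theorem DIs_eq (r : ℕ) (p : unitInterval) : DIs r p = ⋂ n, DDs r p n := by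
  ext ω
  simp only [Set.mem_iInter]
  exact Iff.rfl

theorem measurable_DIs (r : ℕ) (p : unitInterval) : MeasurableSet (DIs r p) := by
  rw [DIs_eq]
  exact MeasurableSet.iInter fun n => measurable_DDs r p n

theorem measurable_AAs (r : ℕ) (p : unitInterval) : MeasurableSet (AAs r p) := by
  rw [AAs_eq]
  exact measurable_RE 1 p (measurable_DIs r p)

section

variable {ν : PMF ℕ} {r : ℕ} {p : unitInterval} {x : ℝ}

theorem compl_real {Ω : Type*} [MeasurableSpace Ω] (P : Measure Ω) [IsProbabilityMeasure P]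
    {B : Set Ω} (hB : MeasurableSet B) (hx0 : 0 ≤ x) (hx : ENNReal.ofReal x ≤ P B) :
    ∃ y : ℝ, 0 ≤ y ∧ y ≤ 1 - x ∧ P Bᶜ = ENNReal.ofReal y := by
  refine ⟨P.real Bᶜ, measureReal_nonneg, ?_, ?_⟩
  · rw [probReal_compl_eq_one_sub hB]
    have : x ≤ P.real B := by
      unfold Measure.real
      exact (ENNReal.ofReal_le_iff_le_toReal (measure_ne_top _ _)).1 hx
    linarith
  · unfold Measure.real
    rw [ENNReal.ofReal_toReal (measure_ne_top _ _)]

theorem prob_DDs (hx0 : 0 < x) (hx1 : x ≤ 1)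
    (hx : ENNReal.ofReal x ≤ ENNReal.ofReal (1 - p) *
      ∑' k : ℕ, ν k * ENNReal.ofReal (TT k r (1 - x))) (n : ℕ) :
    ENNReal.ofReal x ≤ PW (mm ν) (DDs r p n) := by
  induction n with
  | zero =>
    have h1 : PW (mm ν) (DDs r p 0) = ENNReal.ofReal (1 - p) := by
      have h2 := (measurePreserving_eval_infinitePi (fun _ : List ℕ => mm ν) []).measure_preimage
        (s := {e : EE | ¬ e.2 < p}) ((measurable_snd measurableSet_Iio).compl).nullMeasurableSet
      have h3 : (Function.eval [] ⁻¹' {e : EE | ¬ e.2 < p} : Set (List ℕ → EE)) = DDs r p 0 := rfl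
      rw [h3] at h2
      rw [h2]
      have h4 : {e : EE | ¬ e.2 < p} = Set.univ ×ˢ Set.Ici p := by
        ext e; simp
      unfold mm
      rw [h4, Measure.prod_prod, measure_univ, one_mul, unitInterval.volume_Ici]
    rw [h1]
    refine hx.trans ?_
    have h5 : ∑' k : ℕ, ν k * ENNReal.ofReal (TT k r (1 - x)) ≤ ∑' k : ℕ, ν k := by
      refine ENNReal.tsum_le_tsum fun k => ?_
      calc ν k * ENNReal.ofReal (TT k r (1 - x)) ≤ ν k * 1 := by
            gcongr
            exact ENNReal.ofReal_le_one.2 (TT_le_one (by linarith) (by linarith))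
        _ = ν k := mul_one _
    rw [ν.tsum_coe] at h5
    calc ENNReal.ofReal (1 - p) * ∑' k : ℕ, ν k * ENNReal.ofReal (TT k r (1 - x))
        ≤ ENNReal.ofReal (1 - p) * 1 := by gcongr
      _ = _ := mul_one _
  | succ n ih =>
    obtain ⟨y, hy0, hy1, hy⟩ := compl_real (PW (mm ν)) (measurable_DDs r p n) hx0.le ih
    rw [DDs_succ, prob_RE ν r p (measurable_DDs r p n) hy0 (by linarith) hy]
    refine hx.trans ?_
    exact mul_le_mul' le_rfl (ENNReal.tsum_le_tsum fun k =>
      mul_le_mul' le_rfl (TT_anti hy0 hy1 (by linarith)))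

theorem prob_DIs (hx0 : 0 < x) (hx1 : x ≤ 1)
    (hx : ENNReal.ofReal x ≤ ENNReal.ofReal (1 - p) *
      ∑' k : ℕ, ν k * ENNReal.ofReal (TT k r (1 - x))) :
    ENNReal.ofReal x ≤ PW (mm ν) (DIs r p) := by
  rw [DIs_eq]
  have hanti : Antitone (DDs r p) := antitone_nat_of_succ_le fun n ω h => DD_succ_imp r n _ _ h
  have h1 : Tendsto (fun n => PW (mm ν) (DDs r p n)) atTop (𝓝 (PW (mm ν) (⋂ n, DDs r p n))) :=
    tendsto_measure_iInter_atTop (fun n => (measurable_DDs r p n).nullMeasurableSet)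
      hanti ⟨0, measure_ne_top _ _⟩
  exact ge_of_tendsto' h1 fun n => prob_DDs hx0 hx1 hx n

theorem prob_AAs (hp : (p : ℝ) < 1) (hx0 : 0 < x) (hx1 : x ≤ 1)
    (hx : ENNReal.ofReal x ≤ ENNReal.ofReal (1 - p) *
      ∑' k : ℕ, ν k * ENNReal.ofReal (TT k r (1 - x))) :
    0 < PW (mm ν) (AAs r p) := by
  obtain ⟨y, hy0, hy1, hy⟩ := compl_real (PW (mm ν)) (measurable_DIs r p) hx0.le
    (prob_DIs hx0 hx1 hx)
  rw [AAs_eq, prob_RE ν 1 p (measurable_DIs r p) hy0 (by linarith) hy]
  obtain ⟨k, hk⟩ := ν.support_nonempty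
  refine ENNReal.mul_pos (ENNReal.ofReal_pos.2 (by linarith)).ne' ?_
  intro h0
  rw [ENNReal.tsum_eq_zero] at h0
  have h1 := h0 k
  rw [mul_eq_zero] at h1
  rcases h1 with h1 | h1
  · exact (ν.mem_support_iff k).1 hk h1
  · rw [ENNReal.ofReal_eq_zero] at h1
    unfold TT at h1
    simp at h1
    have : 0 < (1 - y) ^ k := pow_pos (by linarith) k
    linarith

/-! ### the null event -/

theorem InTree_congr {Z Z' : Env} : ∀ {u : List ℕ}, (∀ v, v.length < u.length → Z v = Z' v) →
    (InTree Z u ↔ InTree Z' u)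
  | [], _ => Iff.rfl
  | i :: u, h => by
    have h1 : InTree Z u ↔ InTree Z' u := InTree_congr fun v hv => h v (by
      rw [List.length_cons]; omega)
    have h2 : Z u = Z' u := h u (by rw [List.length_cons]; omega)
    show (InTree Z u ∧ i < Z u) ↔ (InTree Z' u ∧ i < Z' u)
    rw [h1, h2]

theorem measurable_InTree (u : List ℕ) : MeasurableSet {ω : List ℕ → EE | InTree (ZZ ω) u} := by
  induction u with
  | nil => exact MeasurableSet.univ
  | cons i u ih =>
    have h1 : Measurable fun ω : List ℕ → EE => (ω u).1 := (measurable_pi_apply _).fst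
    exact ih.inter (h1 (t := {n | i < n}) (MeasurableSet.of_discrete))

/-- the tree reaches all levels and no vertex has the good event below it -/
def BB (r : ℕ) (p : unitInterval) : Set (List ℕ → EE) :=
  {ω | (∀ n : ℕ, ∃ u, InTree (ZZ ω) u ∧ u.length = n) ∧
    ∀ u, InTree (ZZ ω) u → shift u ω ∉ AAs r p}

theorem measurable_BB (r : ℕ) (p : unitInterval) : MeasurableSet (BB r p) := by
  have : BB r p = (⋂ n : ℕ, ⋃ u : List ℕ, ({ω | InTree (ZZ ω) u} ∩ {_ω | u.length = n})) ∩
      ⋂ u : List ℕ, ({ω | InTree (ZZ ω) u}ᶜ ∪ {ω | shift u ω ∉ AAs r p}) := by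
    ext ω
    simp only [BB, Set.mem_inter_iff, Set.mem_iInter, Set.mem_iUnion, Set.mem_union,
      Set.mem_compl_iff, Set.mem_ofPred_eq]
    refine and_congr Iff.rfl (forall_congr' fun u => ?_)
    tauto
  rw [this]
  refine MeasurableSet.inter ?_ ?_
  · exact MeasurableSet.iInter fun n => MeasurableSet.iUnion fun u =>
      (measurable_InTree u).inter (MeasurableSet.const _)
  · exact MeasurableSet.iInter fun u => (measurable_InTree u).compl.union
      ((measurable_shift u (measurable_AAs r p)).compl)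

/-- the selection of a vertex at level `n` -/
def WW (n : ℕ) (u : List ℕ) : Set (List ℕ → EE) :=
  {ω | u.length = n ∧ InTree (ZZ ω) u ∧
    ∀ u', u'.length = n → InTree (ZZ ω) u' → Encodable.encode u ≤ Encodable.encode u'}

theorem measurable_WW (n : ℕ) (u : List ℕ) : MeasurableSet (WW n u) := by
  have : WW n u = {_ω | u.length = n} ∩ ({ω | InTree (ZZ ω) u} ∩
      ⋂ u' : List ℕ, ({_ω | u'.length = n}ᶜ ∪ ({ω | InTree (ZZ ω) u'}ᶜ ∪
        {_ω | Encodable.encode u ≤ Encodable.encode u'}))) := by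
    ext ω
    simp only [WW, Set.mem_inter_iff, Set.mem_iInter, Set.mem_union, Set.mem_compl_iff,
      Set.mem_ofPred_eq]
    refine and_congr Iff.rfl (and_congr Iff.rfl (forall_congr' fun u' => ?_))
    tauto
  rw [this]
  refine (MeasurableSet.const _).inter ((measurable_InTree u).inter
    (MeasurableSet.iInter fun u' => ?_))
  exact (MeasurableSet.const _).compl.union ((measurable_InTree u').compl.union
    (MeasurableSet.const _))

theorem annealed_null (hp : (p : ℝ) < 1) (hx0 : 0 < x) (hx1 : x ≤ 1)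
    (hx : ENNReal.ofReal x ≤ ENNReal.ofReal (1 - p) *
      ∑' k : ℕ, ν k * ENNReal.ofReal (TT k r (1 - x))) :
    PW (mm ν) (BB r p) = 0 := by
  refine null_of_levels (mm ν) (measurable_BB r p) (measurable_AAs r p)
    (prob_AAs hp hx0 hx1 hx) WW measurable_WW ?_ ?_ ?_ ?_ ?_
  · intro n u ω ω' h
    have h1 : ∀ u' : List ℕ, u'.length = n → (InTree (ZZ ω) u' ↔ InTree (ZZ ω') u') := by
      intro u' hu'
      refine InTree_congr fun v hv => ?_
      show (ω v).1 = (ω' v).1
      rw [h v (by omega)]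
    show (u.length = n ∧ InTree (ZZ ω) u ∧
      ∀ u', u'.length = n → InTree (ZZ ω) u' → Encodable.encode u ≤ Encodable.encode u') ↔
      (u.length = n ∧ InTree (ZZ ω') u ∧
      ∀ u', u'.length = n → InTree (ZZ ω') u' → Encodable.encode u ≤ Encodable.encode u')
    constructor
    · rintro ⟨a1, a2, a3⟩
      exact ⟨a1, (h1 u a1).1 a2, fun u' b1 b2 => a3 u' b1 ((h1 u' b1).2 b2)⟩
    · rintro ⟨a1, a2, a3⟩
      exact ⟨a1, (h1 u a1).2 a2, fun u' b1 b2 => a3 u' b1 ((h1 u' b1).1 b2)⟩
  · intro n u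
    by_cases hu : u.length = n
    · left; omega
    · right
      ext ω
      simp only [Set.mem_empty_iff_false, iff_false]
      exact fun h => hu h.1
  · intro n u u' hne
    rw [Set.disjoint_left]
    intro ω h h'
    apply hne
    have h1 := h.2.2 u' h'.1 h'.2.1
    have h2 := h'.2.2 u h.1 h.2.1
    exact Encodable.encode_injective (le_antisymm h1 h2)
  · intro n ω hω
    classical
    have hex : ∃ c : ℕ, ∃ u : List ℕ, u.length = n ∧ InTree (ZZ ω) u ∧ Encodable.encode u = c := by
      obtain ⟨u, h1, h2⟩ := hω.1 n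
      exact ⟨_, u, h2, h1, rfl⟩
    obtain ⟨u, h1, h2, h3⟩ := Nat.find_spec hex
    refine Set.mem_iUnion.2 ⟨u, h1, h2, fun u' h4 h5 => ?_⟩
    rw [h3]
    exact Nat.find_min' hex ⟨u', h4, h5, rfl⟩
  · intro n u
    ext ω
    simp only [Set.mem_inter_iff, Set.mem_ofPred_eq, Set.mem_empty_iff_false, iff_false]
    rintro ⟨⟨h1, h2⟩, h3⟩
    exact h1.2 u h2.2.1 h3

end

end Pool.Agent.X136.GT
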