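import Pool.Agent.X136.GT.Meas

set_option autoImplicit false

/-!
# Binomial probabilities in product spaces
-/

namespace Pool.Agent.X136.GT

open MeasureTheory ProbabilityTheory

/-- probability that a binomial variable with parameters `k`, `y` is less than `r` -/
noncomputable def TT (k r : ℕ) (y : ℝ) : ℝ :=
  ∑ j ∈ Finset.range r, (k.choose j : ℝ) * (y ^ j * (1 - y) ^ (k - j))

section

variable {Ω : Type*} [MeasurableSpace Ω]

/-- fewer than `r` of the first `k` coordinates are outside `B` -/
def CC (k r : ℕ) (B : Set Ω) : Set (ℕ → Ω) :=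
  {z | ∀ S : Finset ℕ, (∀ i ∈ S, i < k ∧ z i ∉ B) → S.card < r}

theorem measurable_CC (k r : ℕ) {B : Set Ω} (hB : MeasurableSet B) : MeasurableSet (CC k r B) := by
  have : CC k r B = ⋂ S : Finset ℕ, ({z | ∀ i ∈ S, i < k ∧ z i ∉ B}ᶜ ∪ {_z | S.card < r}) := by
    ext z
    simp only [CC, Set.mem_iInter, Set.mem_union, Set.mem_compl_iff, Set.mem_ofPred_eq]
    exact forall_congr' fun S => by tauto
  rw [this]
  refine MeasurableSet.iInter fun S => MeasurableSet.union (MeasurableSet.compl ?_)
    (MeasurableSet.const _)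
  have h2 : {z : ℕ → Ω | ∀ i ∈ S, i < k ∧ z i ∉ B} =
      ⋂ i ∈ S, ({_z | i < k} ∩ {z | z i ∉ B}) := by
    ext z; simp
  rw [h2]
  refine Finset.measurableSet_biInter _ fun i _ => (MeasurableSet.const _).inter ?_
  exact (measurable_pi_apply i hB).compl

theorem CC_prob (P : Measure Ω) [IsProbabilityMeasure P] (k r : ℕ) {B : Set Ω}
    (hB : MeasurableSet B) {y : ℝ} (hy0 : 0 ≤ y) (hy1 : y ≤ 1) (hy : P Bᶜ = ENNReal.ofReal y) :
    (Measure.infinitePi fun _ : ℕ => P) (CC k r B) = ENNReal.ofReal (TT k r y) := by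
  classical
  have hyB : P B = ENNReal.ofReal (1 - y) := by
    have h1 := prob_compl_eq_one_sub (μ := P) hB.compl
    rw [compl_compl, hy] at h1
    rw [h1, ENNReal.ofReal_sub _ hy0, ENNReal.ofReal_one]
  set box : Finset ℕ → Set (ℕ → Ω) := fun U =>
    (↑(Finset.range k) : Set ℕ).pi fun i => if i ∈ U then Bᶜ else B with hbox
  have hboxm : ∀ U, MeasurableSet (box U) := fun U =>
    MeasurableSet.pi (Finset.range k).countable_toSet fun i _ => by
      split_ifs
      · exact hB.compl
      · exact hB
  set I := (Finset.range k).powerset.filter fun U => U.card < r with hI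
  have hCC : CC k r B = ⋃ U ∈ I, box U := by
    ext z
    simp only [Set.mem_iUnion]
    constructor
    · intro hz
      set U := (Finset.range k).filter fun i => z i ∉ B with hU
      refine ⟨U, ?_, ?_⟩
      · rw [hI, Finset.mem_filter, Finset.mem_powerset]
        refine ⟨Finset.filter_subset _ _, hz U fun i hi => ?_⟩
        rw [hU, Finset.mem_filter, Finset.mem_range] at hi
        exact hi
      · intro i hi
        have hi' : i < k := Finset.mem_range.1 (Finset.mem_coe.1 hi)
        show z i ∈ (if i ∈ U then Bᶜ else B)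
        by_cases h : z i ∈ B
        · have hiU : i ∉ U := by rw [hU, Finset.mem_filter]; exact fun h' => h'.2 h
          rw [if_neg hiU]
          exact h
        · have hiU : i ∈ U := by
            rw [hU, Finset.mem_filter]; exact ⟨Finset.mem_range.2 hi', h⟩
          rw [if_pos hiU]
          exact h
    · rintro ⟨U, hU, hz⟩ S hS
      rw [hI, Finset.mem_filter] at hU
      refine lt_of_le_of_lt (Finset.card_le_card fun i hi => ?_) hU.2
      obtain ⟨h1, h2⟩ := hS i hi
      by_contra hiU
      have h3 : z i ∈ (if i ∈ U then Bᶜ else B) := hz i (Finset.mem_coe.2 (Finset.mem_range.2 h1))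
      rw [if_neg hiU] at h3
      exact h2 h3
  have hdisj : Set.PairwiseDisjoint (↑I) box := by
    intro U hU V hV hne
    rw [Function.onFun, Set.disjoint_left]
    intro z hz hz'
    apply hne
    have hU' := Finset.mem_powerset.1 (Finset.mem_filter.1 (Finset.mem_coe.1 hU)).1
    have hV' := Finset.mem_powerset.1 (Finset.mem_filter.1 (Finset.mem_coe.1 hV)).1
    have key : ∀ i ∈ Finset.range k, (i ∈ U ↔ i ∈ V) := by
      intro i hi
      have h1 : z i ∈ (if i ∈ U then Bᶜ else B) := hz i (Finset.mem_coe.2 hi)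
      have h2 : z i ∈ (if i ∈ V then Bᶜ else B) := hz' i (Finset.mem_coe.2 hi)
      by_cases hiU : i ∈ U <;> by_cases hiV : i ∈ V
      · simp [hiU, hiV]
      · rw [if_pos hiU] at h1; rw [if_neg hiV] at h2; exact absurd h2 h1
      · rw [if_neg hiU] at h1; rw [if_pos hiV] at h2; exact absurd h1 h2
      · simp [hiU, hiV]
    ext i
    constructor
    · intro h; exact (key i (hU' h)).1 h
    · intro h; exact (key i (hV' h)).2 h
  have hbm : ∀ U ⊆ Finset.range k, (Measure.infinitePi fun _ : ℕ => P) (box U) =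
      ENNReal.ofReal (y ^ U.card * (1 - y) ^ (k - U.card)) := by
    intro U hU
    rw [hbox]
    simp only
    rw [Measure.infinitePi_pi _ fun i _ => by
      split_ifs
      · exact hB.compl
      · exact hB]
    have h1 : ∀ i ∈ Finset.range k, P (if i ∈ U then Bᶜ else B) =
        if i ∈ U then ENNReal.ofReal y else ENNReal.ofReal (1 - y) := by
      intro i _
      split_ifs
      · exact hy
      · exact hyB
    rw [Finset.prod_congr rfl h1, Finset.prod_ite, Finset.prod_const, Finset.prod_const,
      Finset.filter_mem_eq_inter, Finset.inter_eq_right.2 hU]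
    have h2 : ((Finset.range k).filter fun i => i ∉ U).card = k - U.card := by
      rw [Finset.filter_not, Finset.filter_mem_eq_inter, Finset.inter_eq_right.2 hU,
        Finset.card_sdiff_of_subset hU, Finset.card_range]
    rw [h2, ENNReal.ofReal_mul (by positivity), ENNReal.ofReal_pow hy0,
      ENNReal.ofReal_pow (by linarith)]
  rw [hCC, measure_biUnion_finset hdisj fun U _ => hboxm U]
  have h3 : ∀ U ∈ I, (Measure.infinitePi fun _ : ℕ => P) (box U) =
      ENNReal.ofReal (y ^ U.card * (1 - y) ^ (k - U.card)) := fun U hU =>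
    hbm U (Finset.mem_powerset.1 (Finset.mem_filter.1 hU).1)
  have hy1' : (0 : ℝ) ≤ 1 - y := by linarith
  rw [Finset.sum_congr rfl h3, ← ENNReal.ofReal_sum_of_nonneg fun U _ => by positivity]
  congr 1
  have h4 : ∑ U ∈ I, y ^ U.card * (1 - y) ^ (k - U.card) =
      ∑ U ∈ (Finset.range k).powerset,
        (fun j => if j < r then y ^ j * (1 - y) ^ (k - j) else 0) U.card := by
    rw [hI, Finset.sum_filter]
  rw [h4, Finset.sum_powerset_apply_card
    (fun j => if j < r then y ^ j * (1 - y) ^ (k - j) else 0), Finset.card_range]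
  unfold TT
  simp only [nsmul_eq_mul]
  have h5 : ∀ N, k < N → r ≤ N → ∑ j ∈ Finset.range r, (k.choose j : ℝ) *
      (y ^ j * (1 - y) ^ (k - j)) = ∑ j ∈ Finset.range N, (k.choose j : ℝ) *
      (if j < r then y ^ j * (1 - y) ^ (k - j) else 0) := by
    intro N _ hN
    rw [← Finset.sum_filter_add_sum_filter_not (Finset.range N) (fun j => j < r)]
    have e1 : (Finset.range N).filter (fun j => j < r) = Finset.range r := by
      ext j; simp; omega
    rw [e1, Finset.sum_eq_zero (s := (Finset.range N).filter fun j => ¬ j < r), add_zero]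
    · exact Finset.sum_congr rfl fun j hj => by rw [if_pos (Finset.mem_range.1 hj)]
    · intro j hj
      rw [if_neg (Finset.mem_filter.1 hj).2, mul_zero]
  rw [h5 (max (k + 1) r) (by omega) (by omega)]
  refine (Finset.sum_subset ?_ ?_)
  · intro j hj
    rw [Finset.mem_range] at hj ⊢
    omega
  · intro j _ hj
    rw [Finset.mem_range] at hj
    rw [Nat.choose_eq_zero_of_lt (by omega)]
    simp

end

theorem TT_anti {k r : ℕ} {y y' : ℝ} (h0 : 0 ≤ y) (h : y ≤ y') (h1 : y' ≤ 1) :
    ENNReal.ofReal (TT k r y') ≤ ENNReal.ofReal (TT k r y) := by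
  have hc : ∀ (z : ℝ) (hz0 : 0 ≤ z) (hz1 : z ≤ 1),
      (Measure.infinitePi fun _ : ℕ => (volume : Measure unitInterval))
        (CC k r (Set.Ici (⟨z, hz0, hz1⟩ : unitInterval))) = ENNReal.ofReal (TT k r z) := by
    intro z hz0 hz1
    refine CC_prob _ k r measurableSet_Ici hz0 hz1 ?_
    rw [Set.compl_Ici, unitInterval.volume_Iio]
  rw [← hc y h0 (h.trans h1), ← hc y' (h0.trans h) h1]
  refine measure_mono fun z hz S hS => hz S fun i hi => ⟨(hS i hi).1, fun h' => (hS i hi).2 ?_⟩
  exact le_trans (Subtype.mk_le_mk.2 h : (⟨y, h0, h.trans h1⟩ : unitInterval) ≤ ⟨y', h0.trans h, h1⟩) h'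

theorem TT_nonneg {k r : ℕ} {y : ℝ} (h0 : 0 ≤ y) (h1 : y ≤ 1) : 0 ≤ TT k r y :=
  Finset.sum_nonneg fun j _ => by
    have : (0 : ℝ) ≤ 1 - y := by linarith
    positivity

theorem TT_le_one {k r : ℕ} {y : ℝ} (h0 : 0 ≤ y) (h1 : y ≤ 1) : TT k r y ≤ 1 := by
  have h2 := CC_prob (volume : Measure unitInterval) k r
    (B := Set.Ici (⟨y, h0, h1⟩ : unitInterval)) measurableSet_Ici h0 h1 (by
      rw [Set.compl_Ici, unitInterval.volume_Iio])
  have h3 : ENNReal.ofReal (TT k r y) ≤ 1 := by rw [← h2]; exact prob_le_one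
  exact ENNReal.ofReal_le_one.1 h3

end Pool.Agent.X136.GT
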