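import Mathlib

set_option autoImplicit false

/-!
# Bootstrap percolation on Galton-Watson trees: definitions

Vertices are words of natural numbers.  The root is the empty word, the children of the word `u`
are the words `i :: u` with `i` smaller than the number of children of `u`.
-/

namespace Pool.Agent.X136.GT

open MeasureTheory ProbabilityTheory

/-- An environment: `Z u` is the number of children of the word `u`. -/
abbrev Env : Type := List ℕ → ℕ

/-- The word `u` is a vertex of the tree given by `Z`. -/
def InTree (Z : Env) : List ℕ → Prop
  | [] => True
  | i :: u => InTree Z u ∧ i < Z u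

/-- The tree given by `Z`, as a graph: every vertex is joined to its children. -/
def tree (Z : Env) : SimpleGraph {u : List ℕ // InTree Z u} where
  Adj u v := (∃ i, v.1 = i :: u.1) ∨ (∃ i, u.1 = i :: v.1)
  symm := ⟨fun _ _ h => h.symm⟩
  loopless := ⟨fun u h => by
    rcases h with ⟨i, h⟩ | ⟨i, h⟩ <;>
    · have := congrArg List.length h
      simp at this⟩

/-- The Galton-Watson law with offspring distribution `ν`: the numbers of children of all words are
independent with law `ν`. -/
noncomputable def GW (ν : PMF ℕ) : Measure Env :=
  Measure.infinitePi fun _ : List ℕ => ν.toMeasure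

/-- One step of `r`-neighbour bootstrap percolation: the infected set `A` is enlarged by the
vertices which have at least `r` infected neighbours. -/
def infect {V : Type*} (G : SimpleGraph V) (r : ℕ) (A : Set V) : Set V :=
  A ∪ {v | ∃ S : Finset V, S.card = r ∧ ∀ u ∈ S, G.Adj v u ∧ u ∈ A}

/-- Every vertex is eventually infected, when the vertices with `c v = true` are infected
initially. -/
def Percolates {V : Type*} (G : SimpleGraph V) (r : ℕ) (c : V → Bool) : Prop :=
  ∀ v, ∃ n : ℕ, v ∈ (infect G r)^[n] {u | c u = true}

/-- The law under which every vertex is `true` with probability `p`, independently. -/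
noncomputable def bern (V : Type*) (p : unitInterval) : Measure (V → Bool) :=
  Measure.infinitePi fun _ : V => bernoulliMeasure true false p

/-- The critical probability of `r`-neighbour bootstrap percolation. -/
noncomputable def pc {V : Type*} (G : SimpleGraph V) (r : ℕ) : ℝ :=
  sInf {p : ℝ | ∃ h : p ∈ Set.Icc (0 : ℝ) 1, 0 < bern V ⟨p, h⟩ {c | Percolates G r c}}

end Pool.Agent.X136.GT
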