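import Pool.Agent.X136.GT.Ann

set_option autoImplicit false

/-!
# Lower bounds for the critical probability of almost every tree
-/

namespace Pool.Agent.X136.GT

open MeasureTheory ProbabilityTheory Filter Topology

theorem measurable_iter {V : Type*} [Countable V] (G : SimpleGraph V) (r : ℕ) (n : ℕ) :
    ∀ v, MeasurableSet {c : V → Bool | v ∈ (infect G r)^[n] {u | c u = true}} := by
  induction n with
  | zero =>
    intro v
    have hm : Measurable fun c : V → Bool => c v := measurable_pi_apply v
    exact hm (measurableSet_singleton true)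
  | succ n ih =>
    intro v
    have : {c : V → Bool | v ∈ (infect G r)^[n + 1] {u | c u = true}} =
        {c | v ∈ (infect G r)^[n] {u | c u = true}} ∪
        ⋃ S : Finset V, ({_c | S.card = r} ∩ ⋂ u ∈ S, ({_c | G.Adj v u} ∩
          {c | u ∈ (infect G r)^[n] {u | c u = true}})) := by
      ext c
      simp only [Function.iterate_succ_apply', Set.mem_union, Set.mem_iUnion, Set.mem_inter_iff,
        Set.mem_iInter, Set.mem_ofPred_eq]
      rfl
    rw [this]
    refine (ih v).union (MeasurableSet.iUnion fun S => (MeasurableSet.const _).inter ?_)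
    exact Finset.measurableSet_biInter _ fun u _ => (MeasurableSet.const _).inter (ih u)

theorem measurable_percolates {V : Type*} [Countable V] (G : SimpleGraph V) (r : ℕ) :
    MeasurableSet {c : V → Bool | Percolates G r c} := by
  have : {c : V → Bool | Percolates G r c} =
      ⋂ v, ⋃ n : ℕ, {c | v ∈ (infect G r)^[n] {u | c u = true}} := by
    ext c
    simp [Percolates]
  rw [this]
  exact MeasurableSet.iInter fun v => MeasurableSet.iUnion fun n => measurable_iter G r n v

theorem map_decide (p : unitInterval) :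
    (volume : Measure unitInterval).map (fun u => decide (u < p)) =
      bernoulliMeasure true false p := by
  have hm : Measurable fun u : unitInterval => decide (u < p) := by
    refine measurable_to_bool ?_
    have : (fun u : unitInterval => decide (u < p)) ⁻¹' {true} = Set.Iio p := by
      ext u; simp
    rw [this]; exact measurableSet_Iio
  refine Measure.ext_of_singleton fun b => ?_
  rw [Measure.map_apply hm (measurableSet_singleton b), bernoulliMeasure_def]
  simp only [Measure.add_apply, Measure.smul_apply, MeasurableSet.singleton,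
    Measure.dirac_apply', Set.indicator_apply, Set.mem_singleton_iff, Pi.one_apply,
    ENNReal.smul_def, smul_eq_mul]
  cases b
  · have : (fun u : unitInterval => decide (u < p)) ⁻¹' {false} = Set.Ici p := by
      ext u; simp
    rw [this, unitInterval.volume_Ici]
    simp only [if_true, Bool.true_eq_false, if_false, mul_zero, zero_add, mul_one]
    exact ENNReal.ofReal_eq_coe_nnreal (unitInterval.symm p).2.1
  · have : (fun u : unitInterval => decide (u < p)) ⁻¹' {true} = Set.Iio p := by
      ext u; simp
    rw [this, unitInterval.volume_Iio]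
    simp only [if_true, Bool.false_eq_true, if_false, mul_zero, add_zero, mul_one]
    exact ENNReal.ofReal_eq_coe_nnreal p.2.1

theorem bern_eq (Z : Env) (p : unitInterval) : bern {u : List ℕ // InTree Z u} p =
    (Measure.infinitePi fun _ : List ℕ => (volume : Measure unitInterval)).map
      (fun U (v : {u : List ℕ // InTree Z u}) => decide (U v.1 < p)) := by
  have hm : Measurable fun u : unitInterval => decide (u < p) := by
    refine measurable_to_bool ?_
    have : (fun u : unitInterval => decide (u < p)) ⁻¹' {true} = Set.Iio p := by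
      ext u; simp
    rw [this]; exact measurableSet_Iio
  have h1 := Measure.map_infinitePi_infinitePi_of_inj
    (P := fun _ : List ℕ => (volume : Measure unitInterval))
    (f := fun v : {u : List ℕ // InTree Z u} => v.1) Subtype.val_injective
  have h2 := Measure.infinitePi_map_pi
    (μ := fun _ : {u : List ℕ // InTree Z u} => (volume : Measure unitInterval))
    (f := fun _ u => decide (u < p)) (fun _ => hm)
  unfold bern
  rw [← map_decide p, ← h2, ← h1, Measure.map_map]
  · rfl
  · exact measurable_pi_lambda _ fun v => hm.comp (measurable_pi_apply v)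
  · exact measurable_pi_lambda _ fun v => measurable_pi_apply _

theorem bern_one_pos {V : Type*} (G : SimpleGraph V) (r : ℕ) (h : (1 : ℝ) ∈ Set.Icc (0 : ℝ) 1) :
    0 < bern V ⟨1, h⟩ {c | Percolates G r c} := by
  have h1 : bern V ⟨1, h⟩ = Measure.dirac fun _ : V => true := by
    unfold bern
    have : (⟨1, h⟩ : unitInterval) = 1 := rfl
    rw [this, bernoulliMeasure_one, Measure.infinitePi_dirac]
  rw [h1, Measure.dirac_apply_of_mem]
  · exact one_pos
  · intro v
    exact ⟨0, rfl⟩

/-- the criterion for a lower bound of the critical probability -/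
theorem pc_ge (ν : PMF ℕ) {r : ℕ} (hr : 2 ≤ r) {p0 : ℝ} (hp0 : p0 ≤ 1)
    (hcrit : ∀ p : ℝ, 0 < p → p < p0 → ∃ x : ℝ, 0 < x ∧ x ≤ 1 ∧
      ENNReal.ofReal x ≤ ENNReal.ofReal (1 - p) *
        ∑' k : ℕ, ν k * ENNReal.ofReal (TT k r (1 - x))) :
    ∀ᵐ Z ∂GW ν, {u | InTree Z u}.Infinite → p0 ≤ pc (tree Z) r := by
  have h1 : ∀ᵐ ω ∂PW (mm ν), ∀ q : ℚ, ∀ h : (q : ℝ) ∈ Set.Icc (0 : ℝ) 1, 0 < (q : ℝ) →
      (q : ℝ) < p0 → ω ∉ BB r ⟨q, h⟩ := by
    rw [ae_all_iff]
    intro q
    rw [ae_all_iff]
    intro h
    rw [ae_all_iff]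
    intro h2
    rw [ae_all_iff]
    intro h3
    obtain ⟨x, hx0, hx1, hx⟩ := hcrit q h2 h3
    have h4 := annealed_null (ν := ν) (r := r) (p := ⟨q, h⟩) (x := x)
      (by show (q : ℝ) < 1; linarith) hx0 hx1 hx
    rw [ae_iff]
    simpa using h4
  have h2 : ∀ᵐ z ∂((GW ν).prod (Measure.infinitePi fun _ : List ℕ =>
      (volume : Measure unitInterval))), ∀ q : ℚ, ∀ h : (q : ℝ) ∈ Set.Icc (0 : ℝ) 1,
      0 < (q : ℝ) → (q : ℝ) < p0 → zip z ∉ BB r ⟨q, h⟩ := by
    have h3 := map_zip (ι := List ℕ) ν.toMeasure (volume : Measure unitInterval)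
    have h4 : PW (mm ν) = Measure.map zip ((GW ν).prod (Measure.infinitePi fun _ : List ℕ =>
      (volume : Measure unitInterval))) := h3.symm
    rw [h4] at h1
    exact ae_of_ae_map measurable_zip.aemeasurable h1
  have h3 := Measure.ae_ae_of_ae_prod h2
  filter_upwards [h3] with Z hZ hinf
  refine le_csInf ⟨1, ⟨zero_le_one, le_rfl⟩, bern_one_pos _ _ _⟩ ?_
  rintro p ⟨hp, hpos⟩
  by_contra hlt
  push Not at hlt
  obtain ⟨q, hq1, hq2⟩ := exists_rat_btwn hlt
  have hq0 : (0 : ℝ) < q := lt_of_le_of_lt hp.1 hq1
  have hqI : (q : ℝ) ∈ Set.Icc (0 : ℝ) 1 := ⟨hq0.le, by linarith⟩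
  apply hpos.ne'
  rw [bern_eq, Measure.map_apply _ (measurable_percolates _ _)]
  · rw [measure_eq_zero_iff_ae_notMem]
    filter_upwards [hZ] with U hU hperc
    have h4 := hU q hqI hq0 hq2
    have h5 : ∃ u, InTree Z u ∧ shift u (zip (Z, U)) ∈ AAs r ⟨q, hqI⟩ := by
      by_contra hcon
      push Not at hcon
      apply h4
      refine ⟨fun n => ?_, fun u hu => hcon u hu⟩
      obtain ⟨u, hu1, hu2⟩ := exists_level hinf n
      exact ⟨u, hu1, hu2⟩
    obtain ⟨u, hu, hA⟩ := h5
    refine not_percolates (a := fun v => U v < ⟨q, hqI⟩) hr hu hA ?_ hperc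
    intro y hy
    have h6 : U y.1 < ⟨p, hp⟩ := of_decide_eq_true hy
    exact lt_trans h6 (Subtype.mk_lt_mk.2 hq1)
  · refine measurable_pi_lambda _ fun v => ?_
    have hm : Measurable fun u : unitInterval => decide (u < (⟨p, hp⟩ : unitInterval)) := by
      refine measurable_to_bool ?_
      have : (fun u : unitInterval => decide (u < (⟨p, hp⟩ : unitInterval))) ⁻¹' {true} =
          Set.Iio ⟨p, hp⟩ := by
        ext u; simp
      rw [this]; exact measurableSet_Iio
    exact hm.comp (measurable_pi_apply _)

end Pool.Agent.X136.GT
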